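import Mathlib
import Pool.Graph.R_pool_sql_team_seeded_b677cdb8.E8helper16.SL.I2

set_option autoImplicit false

/-! Prime tuples followed by windows: passage from weights to numbers, and the multiples of the primes of a block. -/

namespace Pool.Agent.Helper34.SR
open Finset Filter Topology
open Pool.Agent.E8helper16.SL (LL LL_nonneg LL_nat Sep sep_of Gz Gz_eq lz lz_nat log_tendsto block cnt_dvd)

open Classical in
/-- the number of the `n ≤ N` for which all `n + a i` are prime and which have the property `E` -/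
noncomputable def num {f : ℕ} (a : Fin f → ℕ) (N : ℕ) (E : ℕ → Prop) : ℝ :=
  (((Icc 1 N).filter (fun n => (∀ i, (n + a i).Prime) ∧ E n)).card : ℝ)

lemma num_mono {f : ℕ} (a : Fin f → ℕ) (N : ℕ) {E E' : ℕ → Prop} (h : ∀ n, E n → E' n) : num a N E ≤ num a N E' := by
  classical
  unfold num
  have : (Icc 1 N).filter (fun n => (∀ i, (n + a i).Prime) ∧ E n) ⊆ (Icc 1 N).filter (fun n => (∀ i, (n + a i).Prime) ∧ E' n) := by
    intro n hn
    rw [mem_filter] at hn ⊢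
    exact ⟨hn.1, hn.2.1, h n hn.2.2⟩
  exact_mod_cast card_le_card this

/-- Markov's inequality -/
lemma num_le {f : ℕ} (a : Fin f → ℕ) {N : ℕ} (hN : 2 ≤ N) (E : ℕ → Prop) (G : ℕ → ℝ) (hG : ∀ n, 0 ≤ G n) {τ K : ℝ} (hτ : 0 < τ)
    (hE : ∀ n, E n → τ ≤ G n) (hK : ∑ n ∈ Icc 1 N, (∏ i, ArithmeticFunction.vonMangoldt (n + a i)) * G n ≤ K) :
    num a N E ≤ √(N : ℝ) + 2 ^ f * K / (τ * Real.log N ^ f) := by
  classical
  have hN0 : (0 : ℝ) < N := by exact_mod_cast (by omega : 0 < N)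
  have hL0 : 0 < Real.log N := Real.log_pos (by exact_mod_cast (by omega : 1 < N))
  obtain ⟨S, hS⟩ : ∃ S, S = (Icc 1 N).filter (fun n => (∀ i, (n + a i).Prime) ∧ E n) := ⟨_, rfl⟩
  have hnum : num a N E = S.card := by rw [hS]; rfl
  rw [hnum]
  -- the small ones
  have h1 : ((S.filter (fun n => n ≤ Nat.sqrt N)).card : ℝ) ≤ √(N : ℝ) := by
    have g1 : (S.filter (fun n => n ≤ Nat.sqrt N)).card ≤ Nat.sqrt N := by
      have : S.filter (fun n => n ≤ Nat.sqrt N) ⊆ Icc 1 (Nat.sqrt N) := by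
        intro n hn
        rw [mem_filter, hS, mem_filter, mem_Icc] at hn
        rw [mem_Icc]
        exact ⟨hn.1.1.1, hn.2⟩
      have := card_le_card this
      rwa [Nat.card_Icc, Nat.add_sub_cancel] at this
    refine (Nat.cast_le.2 g1).trans ?_
    exact Real.nat_sqrt_le_real_sqrt
  -- the large ones
  have h2 : ((S.filter (fun n => ¬ n ≤ Nat.sqrt N)).card : ℝ) * ((Real.log N / 2) ^ f * τ) ≤ K := by
    rw [← nsmul_eq_mul, ← sum_const]
    refine le_trans ?_ hK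
    have g1 : ∀ n ∈ S.filter (fun n => ¬ n ≤ Nat.sqrt N), (Real.log N / 2) ^ f * τ ≤
        (∏ i, ArithmeticFunction.vonMangoldt (n + a i)) * G n := by
      intro n hn
      rw [mem_filter, hS, mem_filter, mem_Icc] at hn
      obtain ⟨⟨⟨hn1, hn2⟩, hpr, hEn⟩, hns⟩ := hn
      apply mul_le_mul _ (hE n hEn) hτ.le (prod_nonneg fun i _ => ArithmeticFunction.vonMangoldt_nonneg)
      have g2 : (Real.log N / 2) ^ f = ∏ _i : Fin f, (Real.log N / 2) := by rw [prod_const, card_univ, Fintype.card_fin]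
      rw [g2]
      apply prod_le_prod (fun i _ => by positivity)
      intro i _
      rw [ArithmeticFunction.vonMangoldt_apply_prime (hpr i)]
      have g3 : N < (n + a i) ^ 2 := by
        have : Nat.sqrt N < n + a i := by omega
        rw [Nat.sqrt_lt'] at this
        exact this
      have g4 : (N : ℝ) ≤ ((n + a i : ℕ) : ℝ) ^ 2 := by exact_mod_cast g3.le
      have g5 := Real.log_le_log hN0 g4
      rw [Real.log_pow] at g5
      push_cast at g5 ⊢
      linarith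
    refine (sum_le_sum g1).trans ?_
    apply sum_le_sum_of_subset_of_nonneg
    · intro n hn
      rw [mem_filter, hS, mem_filter] at hn
      exact hn.1.1
    · intro n _ _
      exact mul_nonneg (prod_nonneg fun i _ => ArithmeticFunction.vonMangoldt_nonneg) (hG n)
  have h3 : (S.card : ℝ) = (S.filter (fun n => n ≤ Nat.sqrt N)).card + (S.filter (fun n => ¬ n ≤ Nat.sqrt N)).card := by
    rw [← card_filter_add_card_filter_not (s := S) (fun n => n ≤ Nat.sqrt N)]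
    push_cast
    ring
  rw [h3]
  apply add_le_add h1
  rw [le_div_iff₀ (by positivity)]
  calc ((S.filter (fun n => ¬ n ≤ Nat.sqrt N)).card : ℝ) * (τ * Real.log N ^ f)
      = 2 ^ f * (((S.filter (fun n => ¬ n ≤ Nat.sqrt N)).card : ℝ) * ((Real.log N / 2) ^ f * τ)) := by
        rw [div_pow]
        field_simp
    _ ≤ 2 ^ f * K := mul_le_mul_of_nonneg_left h2 (by positivity)

/-- the sum over the window, restricted to the multiples of `q` -/
noncomputable def T (c : ℕ → ℂ) (H q t : ℕ) : ℂ :=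
  ∑ h ∈ (Icc 1 H).filter (fun h => q ∣ t + h), c h * (-1 : ℂ) ^ (ArithmeticFunction.cardFactors (t + h))

lemma T_eq (c : ℕ → ℂ) {q : ℕ} (hq : q.Prime) (H t : ℕ) : ‖T c H q t‖ = ‖Gz c H q (t : ℤ)‖ := by
  rw [Gz_eq c hq, norm_neg]
  congr 1
  unfold T
  rw [sum_filter]
  apply sum_congr rfl
  intro h hh
  rw [mem_Icc] at hh
  rw [lz_nat (t + h) (by omega)]
  split_ifs <;> simp

/-- the multiples of the primes of a block -/
theorem multiples (f : ℕ) (hf : 1 ≤ f) (D : ℕ) (ε : ℝ) (hε : 0 < ε) : ∃ (C : ℝ) (N₀ : ℕ), 1 ≤ C ∧ ∀ N : ℕ, N₀ ≤ N →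
    ∀ a : Fin f → ℕ, Function.Injective a → (∀ i, a i ≤ N) → (∀ i j, a i ≤ a j + D) → ∀ B : ℕ, B ≤ 2 * N →
    ∀ H Q : ℕ, 1 ≤ Q → C * Q ≤ H → (H : ℝ) ≤ Real.log N ^ (f + 1) →
    ∀ P : Finset ℕ, (∀ q ∈ P, q.Prime ∧ Q ≤ q ∧ q ≤ 2 * Q) → C * Real.log N ^ f ≤ P.card * H →
    ∀ c : ℕ → ℂ, (∀ h, ‖c h‖ ≤ 1) →
      ∑ n ∈ Icc 1 N, (∏ i, ArithmeticFunction.vonMangoldt (n + a i)) * ∑ q ∈ P, ‖T c H q (n + B)‖ ≤ ε * (P.card * ((H : ℝ) / Q * N)) := by
  classical
  obtain ⟨A, hA1, N₁, J₀, hb⟩ := block f hf D (ε / 3) (by positivity)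
  refine ⟨A * 2 ^ f + J₀ + 1, N₁ + 3, by nlinarith [one_le_pow₀ (n := f) (by norm_num : (1 : ℝ) ≤ 2), (Nat.cast_nonneg J₀ : (0 : ℝ) ≤ J₀)], ?_⟩
  intro N hN a ha haN haD B hB H Q hQ hCQ hHl P hP hPH c hc
  have hN2 : 3 ≤ N := by omega
  have hN0 : (0 : ℝ) < N := by exact_mod_cast (by omega : 0 < N)
  have hl0 : 0 ≤ Real.log N := Real.log_natCast_nonneg N
  have hQ0 : (0 : ℝ) < Q := by exact_mod_cast hQ
  have hp1 : (1 : ℝ) ≤ 2 ^ f := one_le_pow₀ (by norm_num)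
  have hJ0' : (0 : ℝ) ≤ J₀ := Nat.cast_nonneg _
  have hA2 : 0 ≤ A * 2 ^ f := by positivity
  have hQH : (Q : ℝ) ≤ H := by nlinarith
  have hQHn : Q ≤ H := by exact_mod_cast hQH
  have hlog : Real.log N ≤ Real.log ((3 * N : ℕ) : ℝ) := by
    apply Real.log_le_log hN0
    push_cast
    linarith
  have hlog2 : Real.log ((3 * N : ℕ) : ℝ) ≤ 2 * Real.log N := by
    have h1 : ((3 * N : ℕ) : ℝ) ≤ (N : ℝ) ^ 2 := by
      have : (3 : ℝ) ≤ N := by exact_mod_cast hN2
      push_cast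
      nlinarith
    have h2 := Real.log_le_log (by positivity) h1
    rw [Real.log_pow] at h2
    push_cast at h2 ⊢
    linarith
  have hJ1 : H < Q * (H / Q + 1) := Nat.lt_mul_div_succ _ (by omega)
  have hJ2 : Q * (H / Q + 1) ≤ 2 * H := by
    have := Nat.mul_div_le H Q
    rw [mul_add, mul_one]
    omega
  have hJ3 : J₀ ≤ H / Q + 1 := by
    have g1 : (J₀ : ℝ) * Q ≤ H := by nlinarith
    have g2 : J₀ * Q ≤ H := by exact_mod_cast g1
    have g3 : J₀ ≤ H / Q := (Nat.le_div_iff_mul_le (by omega)).2 g2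
    omega
  have hAx : A * Real.log ((3 * N : ℕ) : ℝ) ^ f ≤ P.card * H := by
    refine le_trans ?_ hPH
    calc A * Real.log ((3 * N : ℕ) : ℝ) ^ f ≤ A * (2 * Real.log N) ^ f := by
          apply mul_le_mul_of_nonneg_left _ (by linarith)
          exact pow_le_pow_left₀ (hl0.trans hlog) hlog2 f
      _ = (A * 2 ^ f) * Real.log N ^ f := by rw [mul_pow]; ring
      _ ≤ (A * 2 ^ f + J₀ + 1) * Real.log N ^ f := by
          apply mul_le_mul_of_nonneg_right _ (by positivity)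
          linarith
  have hsep : Sep (fun i => (a i : ℤ) - B) D := by
    have := sep_of ha haD (-(B : ℤ))
    simpa [sub_eq_add_neg] using this
  have hsN : ∀ i, |(a i : ℤ) - B| ≤ 2 * ((3 * N : ℕ) : ℤ) := by
    intro i
    have := haN i
    rw [abs_le]
    push_cast
    constructor <;> omega
  have key := hb (3 * N) (by omega) H Q (H / Q + 1) P hQ hQHn
    (hHl.trans (pow_le_pow_left₀ hl0 hlog _)) hP hJ1.le hJ2 hJ3 hAx (fun i => (a i : ℤ) - B) hsep hsN c hc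
  have h1 : ∑ n ∈ Icc 1 N, (∏ i, ArithmeticFunction.vonMangoldt (n + a i)) * ∑ q ∈ P, ‖T c H q (n + B)‖ =
      ∑ q ∈ P, ∑ n ∈ Icc 1 N, LL (fun i => (a i : ℤ) - B) ((n + B : ℕ) : ℤ) * ‖Gz c H q ((n + B : ℕ) : ℤ)‖ := by
    rw [sum_comm]
    apply sum_congr rfl
    intro n _
    rw [mul_sum]
    apply sum_congr rfl
    intro q hq
    rw [LL_nat, T_eq c (hP q hq).1]
  rw [h1]
  have h2 : ∀ q ∈ P, ∑ n ∈ Icc 1 N, LL (fun i => (a i : ℤ) - B) ((n + B : ℕ) : ℤ) * ‖Gz c H q ((n + B : ℕ) : ℤ)‖ ≤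
      ∑ n ∈ Icc 1 (3 * N), LL (fun i => (a i : ℤ) - B) (n : ℤ) * ‖Gz c H q (n : ℤ)‖ := by
    intro q _
    have e1 : ∑ n ∈ Icc 1 N, LL (fun i => (a i : ℤ) - B) ((n + B : ℕ) : ℤ) * ‖Gz c H q ((n + B : ℕ) : ℤ)‖ =
        ∑ m ∈ (Icc 1 N).image (fun n => n + B), LL (fun i => (a i : ℤ) - B) (m : ℤ) * ‖Gz c H q (m : ℤ)‖ := by
      rw [sum_image]
      intro x _ y _ hxy
      simp only at hxy
      omega
    rw [e1]
    apply sum_le_sum_of_subset_of_nonneg
    · intro m hm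
      rw [mem_image] at hm
      obtain ⟨n, hn, rfl⟩ := hm
      rw [mem_Icc] at hn ⊢
      omega
    · intro m _ _
      exact mul_nonneg (LL_nonneg _ _) (norm_nonneg _)
  refine (sum_le_sum h2).trans (key.trans ?_)
  apply le_of_eq
  push_cast
  ring

end Pool.Agent.Helper34.SR
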