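import Mathlib

set_option autoImplicit false

/-! Dyadic blocks with many primes. -/

namespace Pool.Agent.Helper34.SR
open Finset Filter Topology

lemma theta_Ioc (n m : ℕ) (h : n ≤ m) : Chebyshev.theta (m : ℝ) - Chebyshev.theta (n : ℝ) =
    ∑ p ∈ (Ioc n m).filter Nat.Prime, Real.log p := by
  rw [Chebyshev.theta, Chebyshev.theta, Nat.floor_natCast, Nat.floor_natCast]
  have h1 : (Ioc 0 m).filter Nat.Prime = (Ioc 0 n).filter Nat.Prime ∪ (Ioc n m).filter Nat.Prime := by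
    rw [← filter_union, Ioc_union_Ioc_eq_Ioc (Nat.zero_le _) h]
  rw [h1, sum_union]
  · ring
  · apply disjoint_filter_filter
    exact Ioc_disjoint_Ioc_of_le le_rfl

lemma small_err : ∀ᶠ x : ℕ in atTop, Real.log (4 * x + 1) + 2 * √(4 * x : ℝ) * Real.log (4 * x) ≤ (x : ℝ) * (2 * Real.log 2 - 1) := by
  have hc : 0 < 2 * Real.log 2 - 1 := by
    have := Real.log_two_gt_d9
    linarith
  -- `log y ≤ 4 y^(1/4)`
  have h1 : Tendsto (fun x : ℕ => ((x : ℝ)) ^ (1 / 8 : ℝ)) atTop atTop :=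
    (tendsto_rpow_atTop (by norm_num)).comp tendsto_natCast_atTop_atTop
  obtain ⟨c, hcd⟩ : ∃ c, c = 2 * Real.log 2 - 1 := ⟨_, rfl⟩
  filter_upwards [h1.eventually_ge_atTop (1000 / c), eventually_ge_atTop 1] with x hx hx1
  rw [← hcd] at hc ⊢
  have hx1' : (1 : ℝ) ≤ x := by exact_mod_cast hx1
  have hx0 : (0 : ℝ) < x := by linarith
  have g0 : ∀ y : ℝ, 1 ≤ y → Real.log y ≤ 8 * y ^ (1 / 8 : ℝ) := by
    intro y hy
    have := Real.log_le_rpow_div (by linarith : 0 ≤ y) (by norm_num : (0 : ℝ) < 1 / 8)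
    calc Real.log y ≤ y ^ (1 / 8 : ℝ) / (1 / 8) := this
      _ = 8 * y ^ (1 / 8 : ℝ) := by ring
  have p1 : (5 * (x : ℝ)) ^ (1 / 8 : ℝ) ≤ 5 * (x : ℝ) ^ (1 / 8 : ℝ) := by
    rw [Real.mul_rpow (by norm_num) hx0.le]
    apply mul_le_mul_of_nonneg_right _ (by positivity)
    calc (5 : ℝ) ^ (1 / 8 : ℝ) ≤ 5 ^ (1 : ℝ) := Real.rpow_le_rpow_of_exponent_le (by norm_num) (by norm_num)
      _ = 5 := Real.rpow_one 5
  have g1 : Real.log (4 * x + 1) ≤ 40 * (x : ℝ) ^ (1 / 8 : ℝ) := by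
    have a1 : Real.log (4 * x + 1) ≤ Real.log (5 * x) := Real.log_le_log (by linarith) (by linarith)
    have a2 := g0 (5 * x) (by linarith)
    linarith
  have g2 : Real.log (4 * x) ≤ 40 * (x : ℝ) ^ (1 / 8 : ℝ) := by
    have a1 : Real.log (4 * x) ≤ Real.log (5 * x) := Real.log_le_log (by linarith) (by linarith)
    have a2 := g0 (5 * x) (by linarith)
    linarith
  have g3 : √(4 * x : ℝ) = 2 * (x : ℝ) ^ (1 / 2 : ℝ) := by
    rw [Real.sqrt_mul (by norm_num), Real.sqrt_eq_rpow (x : ℝ)]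
    congr 1
    rw [show (4 : ℝ) = 2 ^ 2 by norm_num, Real.sqrt_sq (by norm_num)]
  have g4 : (x : ℝ) ^ (1 / 8 : ℝ) ≤ (x : ℝ) ^ (1 / 2 : ℝ) * (x : ℝ) ^ (1 / 8 : ℝ) := by
    apply le_mul_of_one_le_left (by positivity)
    exact Real.one_le_rpow hx1' (by norm_num)
  have g5 : (x : ℝ) ^ (1 / 2 : ℝ) * (x : ℝ) ^ (1 / 8 : ℝ) * (x : ℝ) ^ (3 / 8 : ℝ) = x := by
    rw [← Real.rpow_add hx0, ← Real.rpow_add hx0]
    norm_num
  have g6 : (x : ℝ) ^ (1 / 8 : ℝ) ≤ (x : ℝ) ^ (3 / 8 : ℝ) := Real.rpow_le_rpow_of_exponent_le hx1' (by norm_num)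
  have g7 : 1000 ≤ c * (x : ℝ) ^ (3 / 8 : ℝ) := by
    have : 1000 / c ≤ (x : ℝ) ^ (3 / 8 : ℝ) := hx.trans g6
    rw [div_le_iff₀ hc] at this
    linarith
  have hy0 : 0 ≤ (x : ℝ) ^ (1 / 2 : ℝ) * (x : ℝ) ^ (1 / 8 : ℝ) := by positivity
  have hl0 : 0 ≤ Real.log (4 * x) := Real.log_nonneg (by linarith)
  rw [g3]
  calc Real.log (4 * x + 1) + 2 * (2 * (x : ℝ) ^ (1 / 2 : ℝ)) * Real.log (4 * x)
      ≤ 40 * (x : ℝ) ^ (1 / 8 : ℝ) + 2 * (2 * (x : ℝ) ^ (1 / 2 : ℝ)) * (40 * (x : ℝ) ^ (1 / 8 : ℝ)) := by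
        apply add_le_add g1
        exact mul_le_mul_of_nonneg_left g2 (by positivity)
    _ ≤ 1000 * ((x : ℝ) ^ (1 / 2 : ℝ) * (x : ℝ) ^ (1 / 8 : ℝ)) := by nlinarith
    _ ≤ (c * (x : ℝ) ^ (3 / 8 : ℝ)) * ((x : ℝ) ^ (1 / 2 : ℝ) * (x : ℝ) ^ (1 / 8 : ℝ)) := mul_le_mul_of_nonneg_right g7 hy0
    _ = c * ((x : ℝ) ^ (1 / 2 : ℝ) * (x : ℝ) ^ (1 / 8 : ℝ) * (x : ℝ) ^ (3 / 8 : ℝ)) := by ring
    _ = x * c := by rw [g5, mul_comm]

/-- one of two neighbouring dyadic blocks has the right order of primes -/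
theorem rich_block : ∃ x₀ : ℕ, 2 ≤ x₀ ∧ ∀ x : ℕ, x₀ ≤ x → ∃ Q : ℕ, (Q = x ∨ Q = 2 * x) ∧
    (x : ℝ) ≤ 4 * (((Ioc Q (2 * Q)).filter Nat.Prime).card * Real.log x * 2) := by
  obtain ⟨x₁, hx₁⟩ := eventually_atTop.1 small_err
  refine ⟨x₁ + 4, by omega, fun x hx => ?_⟩
  have hx4 : (4 : ℝ) ≤ x := by exact_mod_cast (by omega : 4 ≤ x)
  have h1 := hx₁ x (by omega)
  have hlow := Chebyshev.theta_ge (4 * x)
  have hup := Chebyshev.theta_le_log4_mul_x (Nat.cast_nonneg x)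
  have h4 : Real.log 4 = 2 * Real.log 2 := by
    rw [show (4 : ℝ) = 2 ^ 2 by norm_num, Real.log_pow]
    push_cast; ring
  have hd : (x : ℝ) ≤ Chebyshev.theta ((4 * x : ℕ) : ℝ) - Chebyshev.theta (x : ℝ) := by
    push_cast at hlow ⊢
    rw [h4] at hup
    linarith
  have hs : Chebyshev.theta ((4 * x : ℕ) : ℝ) - Chebyshev.theta (x : ℝ) =
      (∑ p ∈ (Ioc (2 * x) (2 * (2 * x))).filter Nat.Prime, Real.log p) + ∑ p ∈ (Ioc x (2 * x)).filter Nat.Prime, Real.log p := by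
    rw [← theta_Ioc x (2 * x) (by omega), ← theta_Ioc (2 * x) (2 * (2 * x)) (by omega)]
    have : 2 * (2 * x) = 4 * x := by ring
    rw [this]
    ring
  have hcard : ∀ Q : ℕ, Q ≤ 2 * x → ∑ p ∈ (Ioc Q (2 * Q)).filter Nat.Prime, Real.log p ≤
      ((Ioc Q (2 * Q)).filter Nat.Prime).card * Real.log x * 2 := by
    intro Q hQ
    have : ∀ p ∈ (Ioc Q (2 * Q)).filter Nat.Prime, Real.log p ≤ Real.log x * 2 := by
      intro p hp
      rw [mem_filter, mem_Ioc] at hp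
      have hpx : (p : ℝ) ≤ (x : ℝ) ^ 2 := by
        have a1 : (p : ℝ) ≤ 4 * x := by exact_mod_cast (by omega : p ≤ 4 * x)
        nlinarith
      have a2 := Real.log_le_log (by exact_mod_cast hp.2.pos) hpx
      rw [Real.log_pow] at a2
      push_cast at a2
      linarith
    refine (sum_le_sum this).trans ?_
    rw [sum_const, nsmul_eq_mul]
    apply le_of_eq
    ring
  have c1 := hcard x (by omega)
  have c2 := hcard (2 * x) le_rfl
  rcases le_or_gt ((x : ℝ) / 2) (((Ioc x (2 * x)).filter Nat.Prime).card * Real.log x * 2) with hh | hh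
  · exact ⟨x, Or.inl rfl, by linarith⟩
  · exact ⟨2 * x, Or.inr rfl, by linarith⟩

end Pool.Agent.Helper34.SR
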