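import Mathlib
import Pool.Agent.Helper34.SW.W2

set_option autoImplicit false

/-! The integers `n` in a residue class with all `n + s i` prime: an upper bound. -/

namespace Pool.Agent.Helper34.SR
open Finset Filter Topology
open Pool.Agent.Helper34.SW (one_sub_le_pow)
open Pool.Agent.H373R2.T7 (Vz Vz_pos pz mem_pz PerB nuB nuB_le)
open Pool.Agent.E8helper16.SL (LL LL_nonneg LL_nat Sep mid mem_mid FL fl_exists mert zN zN_tendsto lam_cost err_cond log_tendsto
  inv_ge_one zN_pow EE card_EE Rough LL_le_log Bad bad_PerB nuB_eq_A Aset pz_split pz_disj Vz_split fac_nonneg two_log_le_z log_pow_le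
  zN_sq natlog_le Nd)

section gen
variable {f : ℕ} (s : Fin f → ℤ) (d : ℕ) (a : ℤ)

/-- all the forms are active -/
def acT (_l : ℕ) : Fin f → Prop := fun _ => True

/-- the constants of the forms -/
def beT : Fin f → ℤ := fun i => s i - a

lemma perT (h : Nd s d a) : PerB (Bad (acT (f := f)) (fun _ => (d : ℤ)) (beT s a)) f := by
  apply bad_PerB
  · rw [Fintype.card_fin]
  · rintro l hl k _ ⟨h1, h2⟩
    have h1' : l ∣ d := by exact_mod_cast h1
    exact h l hl h1' k h2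

/-- the number of the classes -/
lemma nuT {D l : ℕ} (hs : Sep s D) (hl : l.Prime) (hD : D < l) (hld : ¬ l ∣ d) :
    nuB (Bad (acT (f := f)) (fun _ => (d : ℤ)) (beT s a)) l = f := by
  classical
  have hl1 : ¬ (l : ℤ) ∣ (d : ℤ) := by
    intro h
    exact hld (by exact_mod_cast h)
  rw [nuB_eq_A _ _ _ _ hl (fun k _ h => hl1 h.1)]
  · have e : Aset (acT (f := f)) (fun _ => (d : ℤ)) l = univ := by
      unfold Aset
      apply filter_true_of_mem
      intro k _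
      exact ⟨trivial, hl1⟩
    rw [e, card_univ, Fintype.card_fin]
  · intro k _ k' _ hkk h2
    unfold beT at h2
    have e : (d : ℤ) * (s k' - a) - d * (s k - a) = d * (s k' - s k) := by ring
    rw [e] at h2
    rcases (Nat.prime_iff_prime_int.1 hl).dvd_or_dvd h2 with h3 | h3
    · exact hl1 h3
    · obtain ⟨g1, g2⟩ := hs k' k (fun h => hkk h.symm)
      have g3 : s k' - s k ≠ 0 := sub_ne_zero.2 g1
      have g4 := Int.le_of_dvd (abs_pos.2 g3) ((dvd_abs _ _).2 h3)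
      have g5 : (D : ℤ) < l := by exact_mod_cast hD
      omega

/-- the product of the densities -/
lemma prodT {D w z : ℕ} (hs : Sep s D) (hDw : D ≤ w) (hwz : w ≤ z) (hd : d ≠ 0) (hdw : ∀ l : ℕ, l.Prime → l ∣ d → w < l)
    (hdz : d ≤ z) (hcd : d.primeFactors.card ≤ 2) :
    ∏ p ∈ pz z, (1 - (nuB (Bad (acT (f := f)) (fun _ => (d : ℤ)) (beT s a)) p : ℝ) / p) ≤
      (Vz z) ^ f * ((Vz w) ^ f)⁻¹ * 4 ^ f := by
  classical
  obtain ⟨Qd, hQd⟩ : ∃ Qd, Qd = Bad (acT (f := f)) (fun _ => (d : ℤ)) (beT s a) := ⟨_, rfl⟩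
  have hnu : ∀ l : ℕ, l.Prime → D < l → ¬ l ∣ d → nuB Qd l = f := by
    intro l h1 h2 h3
    rw [hQd]
    exact nuT s d a hs h1 h2 h3
  rw [← hQd]
  rw [pz_split w z hwz, prod_union (pz_disj w z)]
  have h1 : ∏ p ∈ pz w, (1 - (nuB Qd p : ℝ) / p) ≤ 1 := by
    apply prod_le_one
    · intro l hl
      exact fac_nonneg _ (mem_pz.1 hl).2
    · intro l _
      have : (0 : ℝ) ≤ (nuB Qd l : ℝ) / l := by positivity
      linarith
  have hpos : ∀ l ∈ mid w z, (0 : ℝ) < 1 - 1 / (l : ℝ) := by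
    intro l hl
    rw [mem_mid] at hl
    have : (1 : ℝ) < l := by exact_mod_cast hl.2.2.one_lt
    have : 1 / (l : ℝ) < 1 := by rw [div_lt_one (by linarith)]; exact this
    linarith
  have h2 : ∏ p ∈ mid w z, (1 - (nuB Qd p : ℝ) / p) ≤
      ∏ p ∈ mid w z, ((1 - 1 / (p : ℝ)) ^ f * (if p ∣ d then (2 : ℝ) ^ f else 1)) := by
    apply Finset.prod_le_prod
    · intro l hl
      exact fac_nonneg _ (mem_mid.1 hl).2.2
    · intro l hl
      have hp := hpos l hl
      rw [mem_mid] at hl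
      have hl0 : (0 : ℝ) < l := by exact_mod_cast hl.2.2.pos
      have hl2 : (2 : ℝ) ≤ l := by exact_mod_cast hl.2.2.two_le
      have hl1 : 1 / (l : ℝ) ≤ 1 / 2 := by
        rw [div_le_div_iff₀ hl0 (by norm_num)]
        linarith
      split_ifs with h
      · have a1 : (1 : ℝ) - (nuB Qd l : ℝ) / l ≤ 1 := by
          have : (0 : ℝ) ≤ (nuB Qd l : ℝ) / l := by positivity
          linarith
        refine a1.trans ?_
        rw [← mul_pow]
        apply one_le_pow₀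
        linarith
      · rw [hnu l hl.2.2 (by omega) h, mul_one]
        have := one_sub_le_pow (show 1 / (l : ℝ) ≤ 1 by linarith) f
        calc 1 - (f : ℝ) / l = 1 - (f : ℝ) * (1 / l) := by ring
          _ ≤ _ := this
  have h3 : ∏ p ∈ mid w z, ((1 - 1 / (p : ℝ)) ^ f * (if p ∣ d then (2 : ℝ) ^ f else 1)) ≤
      (Vz z) ^ f * ((Vz w) ^ f)⁻¹ * 4 ^ f := by
    rw [prod_mul_distrib, prod_pow, ← prod_filter, prod_const]
    have e2 : (∏ p ∈ mid w z, (1 - 1 / (p : ℝ))) ^ f = (Vz z) ^ f * ((Vz w) ^ f)⁻¹ := by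
      rw [Vz_split w z hwz, mul_pow, mul_comm (Vz w ^ f), mul_assoc, mul_inv_cancel₀ (pow_pos (Vz_pos w) f).ne', mul_one]
    rw [e2]
    apply mul_le_mul_of_nonneg_left
    · have e3 : ((mid w z).filter (fun p => p ∣ d)).card ≤ 2 := by
        refine le_trans (card_le_card ?_) hcd
        intro p hp
        rw [mem_filter, mem_mid] at hp
        rw [Nat.mem_primeFactors]
        exact ⟨hp.1.2.2, hp.2, hd⟩
      calc ((2 : ℝ) ^ f) ^ ((mid w z).filter (fun p => p ∣ d)).card ≤ ((2 : ℝ) ^ f) ^ 2 :=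
            pow_le_pow_right₀ (one_le_pow₀ (by norm_num)) e3
        _ = 4 ^ f := by rw [← pow_mul, mul_comm, pow_mul]; norm_num
    · have := (Vz_pos z).le
      have := (Vz_pos w).le
      positivity
  have h4 : 0 ≤ ∏ p ∈ mid w z, (1 - (nuB Qd p : ℝ) / p) :=
    prod_nonneg fun l hl => fac_nonneg _ (mem_mid.1 hl).2.2
  exact (mul_le_of_le_one_left h4 h1).trans (h2.trans h3)

end gen

/-- the errors are small -/
lemma errs (f c0 : ℕ) (hc0 : 1 ≤ c0) (k : ℕ) : ∀ᶠ N : ℕ in atTop,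
    (Real.log (3 * N) ^ f * (f * (zN c0 N * (Nat.log 2 (3 * N) + 1)) : ℕ)) * Real.log N ^ k ≤ N := by
  have h1 := log_pow_le ((2 : ℝ) ^ f * f * 8) (f + k + 1) (1 / 2) (by norm_num)
  filter_upwards [h1, eventually_ge_atTop 3] with N hN hN3
  have hN3r : (3 : ℝ) ≤ N := by exact_mod_cast hN3
  have hN0 : (0 : ℝ) < N := by linarith
  obtain ⟨L, hL⟩ : ∃ L, L = Real.log N := ⟨_, rfl⟩
  have hL1 : 1 ≤ L := by
    rw [hL, Real.le_log_iff_exp_le hN0]
    have := Real.exp_one_lt_d9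
    linarith
  have hlog3 : Real.log (3 * N) ≤ 2 * L := by
    have : Real.log (3 * N) ≤ Real.log ((N : ℝ) ^ 2) := Real.log_le_log (by positivity) (by nlinarith)
    rw [Real.log_pow, ← hL] at this
    exact_mod_cast this
  have hlog30 : 0 ≤ Real.log (3 * N) := Real.log_nonneg (by linarith)
  have hnl : ((Nat.log 2 (3 * N) : ℕ) : ℝ) + 1 ≤ 8 * L := by
    have := natlog_le (N := 3 * N) (by omega)
    push_cast at this
    linarith
  have hz := zN_sq c0 N hc0 (by omega)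
  have hz0 : (0 : ℝ) ≤ zN c0 N := Nat.cast_nonneg _
  rw [← Real.sqrt_eq_rpow, ← hL] at hN
  rw [← hL]
  push_cast
  calc Real.log (3 * N) ^ f * (f * ((zN c0 N : ℝ) * ((Nat.log 2 (3 * N) : ℝ) + 1))) * L ^ k
      ≤ (2 * L) ^ f * (f * (√(N : ℝ) * (8 * L))) * L ^ k := by gcongr
    _ = ((2 : ℝ) ^ f * f * 8 * L ^ (f + k + 1)) * √(N : ℝ) := by rw [mul_pow]; ring
    _ ≤ √(N : ℝ) * √(N : ℝ) := mul_le_mul_of_nonneg_right hN (Real.sqrt_nonneg _)
    _ = N := Real.mul_self_sqrt hN0.le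

/-- the second error -/
lemma errs2 (f c0 : ℕ) {C : ℝ} (hC1 : 1 ≤ C)
    (hC : ∀ N : ℕ, 2 ≤ N → (Vz N)⁻¹ ≤ C * Real.log N ∧ Real.log N ≤ C * (Vz N)⁻¹) (hc0 : 1 ≤ c0) (k : ℕ) : ∀ᶠ N : ℕ in atTop,
    (((Vz (zN c0 N)) ^ f)⁻¹ * √((Nat.sqrt N : ℕ) : ℝ)) * Real.log N ^ k ≤ N := by
  have h1 := log_pow_le (C ^ f) (f + k) (1 / 2) (by norm_num)
  filter_upwards [h1, eventually_ge_atTop 3, (zN_tendsto c0 hc0).eventually_ge_atTop 2] with N hN hN3 hz2
  have hN3r : (3 : ℝ) ≤ N := by exact_mod_cast hN3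
  have hN0 : (0 : ℝ) < N := by linarith
  obtain ⟨L, hL⟩ : ∃ L, L = Real.log N := ⟨_, rfl⟩
  have hL0 : 0 ≤ L := by rw [hL]; exact Real.log_natCast_nonneg N
  have hz := zN_sq c0 N hc0 (by omega)
  have hsN : √(N : ℝ) ≤ N := by
    rw [Real.sqrt_le_left hN0.le]
    nlinarith
  have hzN : (zN c0 N : ℝ) ≤ N := hz.trans hsN
  have hV : (Vz (zN c0 N))⁻¹ ≤ C * L := by
    refine (hC _ hz2).1.trans ?_
    apply mul_le_mul_of_nonneg_left _ (by linarith)
    rw [hL]
    exact Real.log_le_log (by exact_mod_cast (by omega : 0 < zN c0 N)) hzN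
  have hV0 := (Vz_pos (zN c0 N)).le
  have hsq : √((Nat.sqrt N : ℕ) : ℝ) ≤ √(N : ℝ) := by
    apply Real.sqrt_le_sqrt
    exact_mod_cast Nat.sqrt_le_self N
  rw [← Real.sqrt_eq_rpow, ← hL] at hN
  rw [← hL, ← inv_pow]
  calc ((Vz (zN c0 N))⁻¹ ^ f * √((Nat.sqrt N : ℕ) : ℝ)) * L ^ k ≤ ((C * L) ^ f * √(N : ℝ)) * L ^ k := by gcongr
    _ = (C ^ f * L ^ (f + k)) * √(N : ℝ) := by rw [mul_pow, pow_add]; ring
    _ ≤ √(N : ℝ) * √(N : ℝ) := mul_le_mul_of_nonneg_right hN (Real.sqrt_nonneg _)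
    _ = N := Real.mul_self_sqrt hN0.le

theorem apd (f : ℕ) (hf : 1 ≤ f) (D k : ℕ) : ∃ C8 : ℝ, 1 ≤ C8 ∧ ∃ w : ℕ, 2 ≤ w ∧ ∃ N₀ : ℕ, ∀ N : ℕ, N₀ ≤ N →
    ∀ d : ℕ, 1 ≤ d → (d : ℝ) ≤ Real.log N ^ k → (∀ l : ℕ, l.Prime → l ∣ d → w < l) → d.primeFactors.card ≤ 2 →
    ∀ s : Fin f → ℤ, Sep s D → (∀ i, |s i| ≤ 2 * N) → ∀ X t : ℕ, X ≤ N →
      ∑ n ∈ Icc 1 X, LL s n * (if d ∣ n + t then (1 : ℝ) else 0) ≤ C8 * (N / d) := by
  classical
  obtain ⟨C0, hC01, hFLex⟩ := fl_exists f hf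
  obtain ⟨C, hC1, hC⟩ := mert
  have h2b : Tendsto (fun b : ℕ => (2 : ℝ) ^ b) atTop atTop := tendsto_pow_atTop_atTop_of_one_lt (by norm_num)
  obtain ⟨b, hbC0, hb1, hb2⟩ := ((eventually_ge_atTop C0).and
    ((eventually_ge_atTop 1).and (h2b.eventually_ge_atTop (D + (f : ℝ) + 2)))).exists
  obtain ⟨x0, hx0⟩ := hFLex b hbC0
  obtain ⟨c0, hc0⟩ : ∃ c0, c0 = 16 * (C0 * b) := ⟨_, rfl⟩
  have hc01 : 1 ≤ c0 := by
    rw [hc0]
    have : 1 ≤ C0 * b := Nat.mul_pos hC01 hb1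
    omega
  have hff0 : (0 : ℝ) ≤ f := Nat.cast_nonneg _
  have hD0 : (0 : ℝ) ≤ D := Nat.cast_nonneg _
  have w1 : D ≤ 2 ^ b := by
    have : (D : ℝ) ≤ ((2 ^ b : ℕ) : ℝ) := by push_cast; linarith
    exact_mod_cast this
  have w2 : f + 1 ≤ 2 ^ b := by
    have : ((f + 1 : ℕ) : ℝ) ≤ ((2 ^ b : ℕ) : ℝ) := by push_cast; linarith
    exact_mod_cast this
  obtain ⟨V, hV⟩ : ∃ V, V = ((Vz (2 ^ b)) ^ f)⁻¹ := ⟨_, rfl⟩
  have hV1 : 1 ≤ V := by rw [hV]; exact inv_ge_one _ f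
  have hc0r : (0 : ℝ) ≤ c0 := Nat.cast_nonneg _
  obtain ⟨G, hG⟩ : ∃ G : ℝ, G = (8 * c0 * C) ^ f := ⟨_, rfl⟩
  have hG0 : 0 ≤ G := by rw [hG]; positivity
  refine ⟨G * (4 * V * 4 ^ f) + G + 1, by
    have : (0 : ℝ) ≤ G * (4 * V * 4 ^ f) := by positivity
    linarith, 2 ^ b, by omega, ?_⟩
  have hall := (((zN_tendsto c0 hc01).eventually_ge_atTop (x0 + 2 ^ b + 2)).and ((lam_cost c0 hc01 hC1 hC).and
    ((errs f c0 hc01 k).and ((errs2 f c0 hC1 hC hc01 k).and ((log_tendsto.eventually_ge_atTop 1).and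
      ((two_log_le_z c0 hc01 k).and ((log_pow_le 1 k 1 one_pos).and (eventually_ge_atTop 3))))))))
  rw [eventually_atTop] at hall
  obtain ⟨N₀, hall⟩ := hall
  refine ⟨N₀, fun N hN d hd1 hdL hdw hcd s hs hsN X t hX => ?_⟩
  obtain ⟨hz, h4, h5, h6, hL1, h2z, hLN, hN3⟩ := hall N hN
  obtain ⟨z, hzd⟩ : ∃ z, z = zN c0 N := ⟨_, rfl⟩
  rw [← hzd] at hz h4 h5 h6 h2z
  obtain ⟨L, hL⟩ : ∃ L, L = Real.log N := ⟨_, rfl⟩
  rw [← hL] at hL1 h2z hdL h5 h6 hLN
  rw [one_mul, Real.rpow_one] at hLN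
  have hN3r : (3 : ℝ) ≤ N := by exact_mod_cast hN3
  have hN0 : (0 : ℝ) < N := by linarith
  have hd0 : (0 : ℝ) < d := by exact_mod_cast hd1
  have hLk0 : 0 < L ^ k := by positivity
  have hNd : 0 < (N : ℝ) / d := by positivity
  have hNd1 : 1 ≤ (N : ℝ) / d := by
    rw [one_le_div hd0]
    exact hdL.trans hLN
  -- the errors
  obtain ⟨E, hE⟩ : ∃ E, E = Real.log (3 * N) ^ f * (f * (z * (Nat.log 2 (3 * N) + 1)) : ℕ) := ⟨_, rfl⟩
  rw [← hE] at h5
  have hlog : 0 ≤ Real.log (3 * N) := Real.log_nonneg (by linarith)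
  have hlogf : 0 ≤ Real.log (3 * N) ^ f := by positivity
  have hE0 : 0 ≤ E := by
    rw [hE]
    positivity
  have hENd : E ≤ N / d := by
    rw [le_div_iff₀ hd0]
    exact (mul_le_mul_of_nonneg_left hdL hE0).trans h5
  have hVz := (Vz_pos z).le
  obtain ⟨R, hR⟩ : ∃ R, R = ((Vz z) ^ f)⁻¹ * √((Nat.sqrt N : ℕ) : ℝ) := ⟨_, rfl⟩
  rw [← hR] at h6
  have hR0 : 0 ≤ R := by rw [hR]; positivity
  have hRNd : R ≤ N / d := by
    rw [le_div_iff₀ hd0]
    exact (mul_le_mul_of_nonneg_left hdL hR0).trans h6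
  have hzx : z ^ c0 ≤ Nat.sqrt N := by
    rw [Nat.le_sqrt, ← pow_add, ← two_mul, hzd]
    exact zN_pow c0 N hc01
  rw [hc0] at hzx
  have hFL : FL f b (Nat.sqrt N) z := hx0 (Nat.sqrt N) z (by omega) hzx
  have hwz : 2 ^ b ≤ z := by omega
  have hdz : d ≤ z := by
    have : (d : ℝ) ≤ z := by linarith
    exact_mod_cast this
  -- the residue class
  obtain ⟨a, ha1, had, hat⟩ : ∃ a : ℕ, 1 ≤ a ∧ a ≤ d ∧ ∃ r : ℕ, t + d = a + d * r := by
    rcases Nat.eq_zero_or_pos (t % d) with h | h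
    · refine ⟨d, hd1, le_rfl, t / d, ?_⟩
      have := Nat.mod_add_div t d
      omega
    · refine ⟨t % d, h, (Nat.mod_lt _ hd1).le, t / d + 1, ?_⟩
      have := Nat.mod_add_div t d
      rw [mul_add, mul_one]
      omega
  obtain ⟨r, hr⟩ := hat
  -- `n = d m - a`
  have hnm : ∀ n : ℕ, n ≤ X → d ∣ n + t → ∃ m ∈ Icc 1 (X / d + 1), (n : ℤ) = d * m - a := by
    intro n hn hdn
    have h1 : d ∣ n + a := by
      have h2 : d ∣ n + t + d := dvd_add hdn dvd_rfl
      have e : n + t + d = n + a + d * r := by omega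
      rw [e] at h2
      exact (Nat.dvd_add_left (dvd_mul_right d r)).1 h2
    obtain ⟨m, hm⟩ := h1
    refine ⟨m, ?_, ?_⟩
    · rw [mem_Icc]
      constructor
      · rcases Nat.eq_zero_or_pos m with h0 | h0
        · rw [h0, mul_zero] at hm
          omega
        · exact h0
      · have h3 : d * m ≤ X + d := by omega
        have h4 : m ≤ (X + d) / d := (Nat.le_div_iff_mul_le hd1).2 (by rw [mul_comm]; exact h3)
        rwa [Nat.add_div_right _ hd1] at h4
    · have : ((n : ℤ) + a) = d * m := by exact_mod_cast hm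
      linarith
  have hEEs : ∑ n ∈ Icc 1 X, (if n ∈ EE s z N then Real.log (3 * N) ^ f else 0) ≤ E := by
    rw [← sum_filter, sum_const, nsmul_eq_mul, hE, mul_comm]
    apply mul_le_mul_of_nonneg_left _ (by positivity)
    have h4 : (Icc 1 X).filter (fun n => n ∈ EE s z N) ⊆ EE s z N := fun n hn => (mem_filter.1 hn).2
    exact_mod_cast (card_le_card h4).trans (card_EE s hsN z)
  have hGV : 0 ≤ G * (4 * V * 4 ^ f) := by positivity
  by_cases hnd : Nd s d (a : ℤ)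
  · -- the count
    obtain ⟨Qd, hQd⟩ : ∃ Qd, Qd = Bad (acT (f := f)) (fun _ => (d : ℤ)) (beT s (a : ℤ)) := ⟨_, rfl⟩
    have hper : PerB Qd (2 * f) := by
      have := perT s d (a : ℤ) hnd
      rw [← hQd] at this
      exact ⟨this.per, fun p hp => (this.few p hp).trans (by omega)⟩
    obtain ⟨S, hS⟩ : ∃ S, S = (Icc 1 (X / d + 1)).filter (fun m : ℕ => ∀ p ∈ pz z, ¬ Qd p m) := ⟨_, rfl⟩
    have hcnt : (S.card : ℝ) ≤ 2 * ((2 * (N / d)) * ((Vz z) ^ f * V * 4 ^ f)) + √((Nat.sqrt N : ℕ) : ℝ) := by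
      have a1 := (abs_le.1 (hFL _ hper (X / d + 1))).2
      rw [← hS] at a1
      have a2 := prodT s d (a : ℤ) hs w1 hwz (by omega) hdw hdz hcd
      rw [← hV, ← hQd] at a2
      obtain ⟨Pr, hPr⟩ : ∃ Pr, Pr = ∏ p ∈ pz z, (1 - (nuB Qd p : ℝ) / p) := ⟨_, rfl⟩
      rw [← hPr] at a1 a2
      have hPr0 : 0 ≤ Pr := by
        rw [hPr]
        exact prod_nonneg fun l hl => fac_nonneg _ (mem_pz.1 hl).2
      have hXN : (((X / d + 1 : ℕ)) : ℝ) ≤ 2 * (N / d) := by
        have q1 : ((X / d : ℕ) : ℝ) ≤ X / d := Nat.cast_div_le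
        have q2 : (X : ℝ) / d ≤ N / d := by
          apply div_le_div_of_nonneg_right _ hd0.le
          exact_mod_cast hX
        push_cast
        linarith
      have he1 : (1 / 2 : ℝ) ^ b ≤ 1 := pow_le_one₀ (by norm_num) (by norm_num)
      have he0 : (0 : ℝ) ≤ (1 / 2 : ℝ) ^ b := by positivity
      have a3 : ((X / d + 1 : ℕ) : ℝ) * Pr ≤ (2 * (N / d)) * ((Vz z) ^ f * V * 4 ^ f) := mul_le_mul hXN a2 hPr0 (by positivity)
      have a4 : 0 ≤ ((X / d + 1 : ℕ) : ℝ) * Pr := by positivity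
      nlinarith
    have h7 : ∑ n ∈ Icc 1 X, LL s (n : ℤ) * (if d ∣ n + t then (1 : ℝ) else 0) ≤
        Real.log (3 * N) ^ f * S.card + ∑ n ∈ Icc 1 X, (if n ∈ EE s z N then Real.log (3 * N) ^ f else 0) := by
      -- the good `n`
      obtain ⟨T, hT⟩ : ∃ T, T = (Icc 1 X).filter (fun n => d ∣ n + t ∧ Rough s z (n : ℤ)) := ⟨_, rfl⟩
      have q1 : ∀ n ∈ Icc 1 X, LL s (n : ℤ) * (if d ∣ n + t then (1 : ℝ) else 0) ≤
          (if d ∣ n + t ∧ Rough s z (n : ℤ) then Real.log (3 * N) ^ f else 0) + (if n ∈ EE s z N then Real.log (3 * N) ^ f else 0) := by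
        intro n hn
        rw [mem_Icc] at hn
        have q3 := LL_le_log s (N := N) (by omega) hsN (n := n) (by omega)
        have q0 := LL_nonneg s (n : ℤ)
        by_cases a1 : d ∣ n + t
        · rw [if_pos a1, mul_one]
          by_cases a2 : Rough s z (n : ℤ)
          · rw [if_pos ⟨a1, a2⟩]
            split_ifs <;> linarith
          · rw [if_neg (fun h => a2 h.2), zero_add]
            by_cases h0 : LL s (n : ℤ) = 0
            · rw [h0]
              split_ifs <;> positivity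
            · have hmem : n ∈ EE s z N := by
                unfold EE
                rw [mem_filter, mem_Icc]
                exact ⟨⟨hn.1, by omega⟩, h0, a2⟩
              rw [if_pos hmem]
              exact q3
        · rw [if_neg a1, mul_zero]
          positivity
      refine (sum_le_sum q1).trans ?_
      rw [sum_add_distrib, ← sum_filter, ← hT, sum_const, nsmul_eq_mul, mul_comm]
      refine add_le_add (mul_le_mul_of_nonneg_left ?_ hlogf) le_rfl
      -- an injection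
      have q2 : T ⊆ (S.image (fun m => d * m - a)) := by
        intro n hn
        rw [hT, mem_filter, mem_Icc] at hn
        obtain ⟨hn1, hdn, hrough⟩ := hn
        obtain ⟨m, hm1, hm2⟩ := hnm n hn1.2 hdn
        rw [mem_image]
        refine ⟨m, ?_, ?_⟩
        · rw [hS, mem_filter]
          refine ⟨hm1, ?_⟩
          intro p hp hbad
          rw [hQd] at hbad
          obtain ⟨i, _, hi⟩ := hbad
          apply hrough p hp i
          rw [hm2]
          have e : (d : ℤ) * m - a + s i = d * m + beT s (a : ℤ) i := by unfold beT; ring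
          rw [e]
          exact hi
        · have : ((d * m : ℕ) : ℤ) = n + a := by push_cast; linarith
          have h2 : d * m = n + a := by exact_mod_cast this
          omega
      exact_mod_cast (card_le_card q2).trans card_image_le
    have h9 : Real.log (3 * N) ^ f * (Vz z) ^ f ≤ G := by
      rw [← mul_pow, hG]
      exact pow_le_pow_left₀ (by positivity) h4 f
    have h10 : Real.log (3 * N) ^ f ≤ G * ((Vz z) ^ f)⁻¹ := by
      rw [← div_eq_mul_inv, le_div_iff₀ (pow_pos (Vz_pos z) f)]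
      exact h9
    calc _ ≤ _ := h7
      _ ≤ Real.log (3 * N) ^ f * (2 * ((2 * (N / d)) * ((Vz z) ^ f * V * 4 ^ f)) + √((Nat.sqrt N : ℕ) : ℝ)) + E :=
          add_le_add (mul_le_mul_of_nonneg_left hcnt hlogf) hEEs
      _ = (Real.log (3 * N) ^ f * (Vz z) ^ f) * (4 * V * 4 ^ f * (N / d)) + Real.log (3 * N) ^ f * √((Nat.sqrt N : ℕ) : ℝ) + E := by ring
      _ ≤ G * (4 * V * 4 ^ f * (N / d)) + (G * ((Vz z) ^ f)⁻¹) * √((Nat.sqrt N : ℕ) : ℝ) + E := by
          gcongr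
      _ = G * (4 * V * 4 ^ f) * (N / d) + G * R + E := by rw [hR]; ring
      _ ≤ G * (4 * V * 4 ^ f) * (N / d) + G * (N / d) + N / d := by gcongr
      _ = (G * (4 * V * 4 ^ f) + G + 1) * (N / d) := by ring
  · -- a degenerate class
    unfold Nd at hnd
    push Not at hnd
    obtain ⟨l, hl, hld, i, hi⟩ := hnd
    have hlz : l ∈ pz z := by
      rw [mem_pz]
      exact ⟨(Nat.le_of_dvd hd1 hld).trans hdz, hl⟩
    have q1 : ∀ n ∈ Icc 1 X, LL s (n : ℤ) * (if d ∣ n + t then (1 : ℝ) else 0) ≤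
        (if n ∈ EE s z N then Real.log (3 * N) ^ f else 0) := by
      intro n hn
      rw [mem_Icc] at hn
      have q3 := LL_le_log s (N := N) (by omega) hsN (n := n) (by omega)
      by_cases a1 : d ∣ n + t
      · rw [if_pos a1, mul_one]
        by_cases h0 : LL s (n : ℤ) = 0
        · rw [h0]
          split_ifs <;> positivity
        · have hmem : n ∈ EE s z N := by
            unfold EE
            rw [mem_filter, mem_Icc]
            refine ⟨⟨hn.1, by omega⟩, h0, ?_⟩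
            intro hrough
            obtain ⟨m, _, hm2⟩ := hnm n hn.2 a1
            apply hrough l hlz i
            rw [hm2]
            have e : (d : ℤ) * m - a + s i = d * m + (s i - a) := by ring
            rw [e]
            apply dvd_add _ hi
            exact dvd_mul_of_dvd_left (by exact_mod_cast hld) _
          rw [if_pos hmem]
          exact q3
      · rw [if_neg a1, mul_zero]
        split_ifs <;> positivity
    refine (sum_le_sum q1).trans (hEEs.trans (hENd.trans ?_))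
    have : 0 ≤ G * (N / d) := by positivity
    nlinarith

end Pool.Agent.Helper34.SR
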