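import Mathlib
import Pool.Agent.Helper34.SR.A1
import Pool.Agent.Helper34.SR.A2
import Pool.Agent.Helper34.SR.A4

set_option autoImplicit false

/-! The number of the mismatches in one window, and the second moment. -/

namespace Pool.Agent.Helper34.SR
open Finset Filter Topology
open Pool.Agent.E8helper16.SL (LL LL_nonneg LL_nat Sep sep_of cnt_dvd sum_ind RP RP_nonneg)

/-- the number of the prime divisors in `P` -/
def omp (P : Finset ℕ) (m : ℕ) : ℕ := (P.filter (fun q => q ∣ m)).card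

lemma omp_eq (P : Finset ℕ) (m : ℕ) : (omp P m : ℝ) = ∑ q ∈ P, if q ∣ m then (1 : ℝ) else 0 := by
  unfold omp
  rw [← sum_filter, sum_const, nsmul_eq_mul, mul_one]

/-- the places where the signs differ from the pattern `s` -/
def mis (s : ℕ → ℤ) (H t : ℕ) : Finset ℕ :=
  (Icc 1 H).filter (fun h => (-1 : ℤ) ^ (ArithmeticFunction.cardFactors (t + h)) ≠ s h)

/-- the coefficients of the pattern -/
noncomputable def cs (s : ℕ → ℤ) (h : ℕ) : ℂ := if s h = 1 then 1 else if s h = -1 then -1 else 0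

lemma cs_norm (s : ℕ → ℤ) (h : ℕ) : ‖cs s h‖ ≤ 1 := by
  unfold cs
  split_ifs <;> simp

/-- the pairs of the pattern -/
lemma cs_re (s : ℕ → ℤ) (h m : ℕ) : (1 : ℝ) - 2 * (if (-1 : ℤ) ^ m ≠ s h then 1 else 0) ≤ (cs s h * (-1 : ℂ) ^ m).re := by
  unfold cs
  rcases neg_one_pow_eq_or ℤ m with e | e
  · have e' : (-1 : ℂ) ^ m = 1 := by
      have := congrArg (fun x : ℤ => (x : ℂ)) e
      push_cast at this
      exact this
    rw [e, e']
    by_cases h1 : s h = 1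
    · rw [if_pos h1, h1]
      norm_num
    · rw [if_neg h1, if_pos (by intro h2; exact h1 h2.symm)]
      split_ifs <;> norm_num
  · have e' : (-1 : ℂ) ^ m = -1 := by
      have := congrArg (fun x : ℤ => (x : ℂ)) e
      push_cast at this
      exact this
    rw [e, e']
    by_cases h1 : s h = 1
    · rw [if_pos h1, if_pos (by rw [h1]; norm_num)]
      norm_num
    · by_cases h2 : s h = -1
      · rw [if_neg h1, if_pos h2, if_neg (by rw [h2]; simp)]
        norm_num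
      · rw [if_neg h1, if_neg h2, if_pos (by intro h3; exact h2 h3.symm)]
        norm_num

/-- the total number of the pairs -/
lemma total_le (s : ℕ → ℤ) (P : Finset ℕ) (H t : ℕ) :
    ∑ h ∈ Icc 1 H, (omp P (t + h) : ℝ) ≤ ∑ q ∈ P, ‖T (cs s) H q t‖ + 2 * ∑ h ∈ mis s H t, (omp P (t + h) : ℝ) := by
  have h1 : ∑ h ∈ mis s H t, (omp P (t + h) : ℝ) =
      ∑ q ∈ P, ∑ h ∈ Icc 1 H, (if q ∣ t + h then (1 : ℝ) else 0) *
        (if (-1 : ℤ) ^ (ArithmeticFunction.cardFactors (t + h)) ≠ s h then 1 else 0) := by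
    rw [sum_comm]
    unfold mis
    rw [sum_filter]
    apply sum_congr rfl
    intro h _
    rw [← sum_mul, ← omp_eq]
    split_ifs <;> simp
  have h2 : ∑ h ∈ Icc 1 H, (omp P (t + h) : ℝ) = ∑ q ∈ P, ∑ h ∈ Icc 1 H, (if q ∣ t + h then (1 : ℝ) else 0) := by
    rw [sum_comm]
    apply sum_congr rfl
    intro h _
    rw [omp_eq]
  rw [h1, h2, mul_sum, ← sum_add_distrib]
  apply sum_le_sum
  intro q _
  have h3 : (T (cs s) H q t).re ≤ ‖T (cs s) H q t‖ := Complex.re_le_norm _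
  have h4 : (T (cs s) H q t).re = ∑ h ∈ Icc 1 H, (if q ∣ t + h then (1 : ℝ) else 0) *
      (cs s h * (-1 : ℂ) ^ (ArithmeticFunction.cardFactors (t + h))).re := by
    unfold T
    rw [Complex.re_sum, sum_filter]
    apply sum_congr rfl
    intro h _
    split_ifs <;> simp
  have h5 : ∑ h ∈ Icc 1 H, (if q ∣ t + h then (1 : ℝ) else 0) ≤
      (T (cs s) H q t).re + 2 * ∑ h ∈ Icc 1 H, (if q ∣ t + h then (1 : ℝ) else 0) *
        (if (-1 : ℤ) ^ (ArithmeticFunction.cardFactors (t + h)) ≠ s h then 1 else 0) := by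
    rw [h4, mul_sum, ← sum_add_distrib]
    apply sum_le_sum
    intro h _
    have := cs_re s h (ArithmeticFunction.cardFactors (t + h))
    by_cases hd : q ∣ t + h
    · rw [if_pos hd]
      linarith
    · rw [if_neg hd]
      simp
  linarith

/-- the off diagonal pairs -/
noncomputable def VV (P : Finset ℕ) (H t : ℕ) : ℝ :=
  ∑ q ∈ P, ∑ q' ∈ P.filter (fun q' => q' ≠ q), ∑ h ∈ Icc 1 H, if q * q' ∣ t + h then (1 : ℝ) else 0

lemma VV_nonneg (P : Finset ℕ) (H t : ℕ) : 0 ≤ VV P H t := by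
  unfold VV
  refine sum_nonneg fun q _ => sum_nonneg fun q' _ => sum_nonneg fun h _ => ?_
  split_ifs <;> norm_num

/-- the sum of the squares -/
lemma sq_sum (P : Finset ℕ) (hP : ∀ q ∈ P, q.Prime) (H t : ℕ) :
    ∑ h ∈ Icc 1 H, (omp P (t + h) : ℝ) ^ 2 = ∑ h ∈ Icc 1 H, (omp P (t + h) : ℝ) + VV P H t := by
  have h1 : VV P H t = ∑ h ∈ Icc 1 H, ∑ q ∈ P, ∑ q' ∈ P.filter (fun q' => q' ≠ q), if q * q' ∣ t + h then (1 : ℝ) else 0 := by
    unfold VV
    rw [sum_comm]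
    conv_rhs => rw [sum_comm]
    rw [sum_comm]
    apply sum_congr rfl
    intro q _
    rw [sum_comm]
  rw [h1, ← sum_add_distrib]
  apply sum_congr rfl
  intro h _
  rw [omp_eq, sq, sum_mul_sum, ← sum_add_distrib]
  apply sum_congr rfl
  intro q hq
  have h2 : P = insert q (P.filter (fun q' => q' ≠ q)) := by
    ext x
    rw [mem_insert, mem_filter]
    constructor
    · intro hx
      by_cases e : x = q
      · exact Or.inl e
      · exact Or.inr ⟨hx, e⟩
    · rintro (e | e)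
      · rw [e]; exact hq
      · exact e.1
  have h3 : ∑ q' ∈ P, (if q ∣ t + h then (1 : ℝ) else 0) * (if q' ∣ t + h then (1 : ℝ) else 0) =
      ∑ q' ∈ insert q (P.filter (fun q' => q' ≠ q)), (if q ∣ t + h then (1 : ℝ) else 0) * (if q' ∣ t + h then (1 : ℝ) else 0) := by
    rw [← h2]
  rw [h3, sum_insert (by rw [mem_filter]; tauto)]
  congr 1
  · split_ifs <;> simp
  · apply sum_congr rfl
    intro q' hq'
    rw [mem_filter] at hq'
    have hco : Nat.Coprime q q' := (Nat.coprime_primes (hP q hq) (hP q' hq'.1)).2 (Ne.symm hq'.2)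
    by_cases a1 : q ∣ t + h
    · by_cases a2 : q' ∣ t + h
      · rw [if_pos a1, if_pos a2, if_pos (hco.mul_dvd_of_dvd_of_dvd a1 a2), mul_one]
      · rw [if_neg a2, if_neg (fun hh => a2 ((dvd_mul_left q' q).trans hh)), mul_zero]
    · rw [if_neg a1, if_neg (fun hh => a1 ((dvd_mul_right q q').trans hh)), zero_mul]

/-- the number of the multiples -/
lemma tot_bounds (P : Finset ℕ) {H : ℕ} (hP : ∀ q ∈ P, q.Prime ∧ 4 * q ≤ H) (t : ℕ) :
    3 / 4 * (RP P * H) ≤ ∑ h ∈ Icc 1 H, (omp P (t + h) : ℝ) ∧ ∑ h ∈ Icc 1 H, (omp P (t + h) : ℝ) ≤ 2 * (RP P * H) := by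
  have h1 : ∑ h ∈ Icc 1 H, (omp P (t + h) : ℝ) = ∑ q ∈ P, ((((Icc 1 H).filter (fun h => q ∣ t + h)).card : ℕ) : ℝ) := by
    have : ∀ h ∈ Icc 1 H, (omp P (t + h) : ℝ) = ∑ q ∈ P, if q ∣ t + h then (1 : ℝ) else 0 := fun h _ => omp_eq P (t + h)
    rw [sum_congr rfl this, sum_comm]
    exact sum_congr rfl (fun q _ => sum_ind t H q)
  have h2 : RP P * H = ∑ q ∈ P, (H : ℝ) / q := by
    unfold RP
    rw [sum_mul]
    apply sum_congr rfl
    intro q _
    ring
  have h3 : ∀ q ∈ P, (3 / 4 * ((H : ℝ) / q) ≤ ((((Icc 1 H).filter (fun h => q ∣ t + h)).card : ℕ) : ℝ)) ∧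
      ((((Icc 1 H).filter (fun h => q ∣ t + h)).card : ℕ) : ℝ) ≤ 2 * ((H : ℝ) / q) := by
    intro q hq
    have hq1 := (hP q hq).1.one_lt.le
    have hq0 : (0 : ℝ) < q := by exact_mod_cast hq1
    have c1 := cnt_dvd q t H hq1
    rw [abs_le] at c1
    have c2 : (4 : ℝ) ≤ (H : ℝ) / q := by
      rw [le_div_iff₀ hq0]
      exact_mod_cast (hP q hq).2
    constructor <;> linarith [c1.1, c1.2]
  rw [h1, h2, mul_sum, mul_sum]
  exact ⟨sum_le_sum (fun q hq => (h3 q hq).1), sum_le_sum (fun q hq => (h3 q hq).2)⟩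

/-- many mismatches -/
lemma mis_ge (s : ℕ → ℤ) (P : Finset ℕ) {H : ℕ} (hP : ∀ q ∈ P, q.Prime ∧ 4 * q ≤ H) (t : ℕ) {A : ℝ} (hA : 0 ≤ A)
    (hH : 1 ≤ H) (hR : 0 < RP P)
    (hX : ∑ q ∈ P, ‖T (cs s) H q t‖ ≤ RP P * H / 4) (hV : VV P H t ≤ A * RP P ^ 2 * H) :
    min 1 (RP P) * H / (16 * (2 + A)) ≤ (mis s H t).card := by
  obtain ⟨R, hRd⟩ : ∃ R, R = RP P := ⟨_, rfl⟩
  have hH0 : (0 : ℝ) < H := by exact_mod_cast hH
  obtain ⟨b1, b2⟩ := tot_bounds P hP t
  have hsq := sq_sum P (fun q hq => (hP q hq).1) H t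
  have htot := total_le s P H t
  obtain ⟨W, hW⟩ : ∃ W, W = ∑ h ∈ mis s H t, (omp P (t + h) : ℝ) := ⟨_, rfl⟩
  obtain ⟨m, hm⟩ : ∃ m : ℝ, m = (mis s H t).card := ⟨_, rfl⟩
  rw [← hRd] at hR hX hV b1 b2 ⊢
  rw [← hW] at htot
  rw [← hm]
  have hm0 : 0 ≤ m := by rw [hm]; positivity
  have h1 : R * H / 4 ≤ W := by linarith
  have h2 : W ^ 2 ≤ m * ∑ h ∈ Icc 1 H, (omp P (t + h) : ℝ) ^ 2 := by
    have c1 := sq_sum_le_card_mul_sum_sq (s := mis s H t) (f := fun h => (omp P (t + h) : ℝ))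
    rw [← hW, ← hm] at c1
    refine c1.trans ?_
    apply mul_le_mul_of_nonneg_left _ hm0
    apply sum_le_sum_of_subset_of_nonneg
    · unfold mis
      exact filter_subset _ _
    · intro h _ _
      positivity
  have h3 : (R * H / 4) ^ 2 ≤ m * (2 * (R * H) + A * R ^ 2 * H) := by
    have c1 : (R * H / 4) ^ 2 ≤ W ^ 2 := pow_le_pow_left₀ (by positivity) h1 2
    refine c1.trans (h2.trans ?_)
    apply mul_le_mul_of_nonneg_left _ hm0
    rw [hsq]
    linarith
  have h4 : R * H / 16 ≤ m * (2 + A * R) := by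
    have e1 : (R * H / 4) ^ 2 = (R * H) * (R * H / 16) := by ring
    have e2 : m * (2 * (R * H) + A * R ^ 2 * H) = (R * H) * (m * (2 + A * R)) := by ring
    rw [e1, e2] at h3
    exact le_of_mul_le_mul_left h3 (by positivity)
  rw [div_le_iff₀ (by positivity)]
  rcases le_total 1 R with hc | hc
  · rw [min_eq_left hc, one_mul]
    have c1 : R * H ≤ R * (m * (16 * (2 + A))) := by nlinarith [mul_nonneg hm0 (by linarith : 0 ≤ R - 1)]
    exact le_of_mul_le_mul_left c1 hR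
  · rw [min_eq_right hc]
    have c1 : m * (2 + A * R) ≤ m * (2 + A) := by
      apply mul_le_mul_of_nonneg_left _ hm0
      nlinarith
    linarith

end Pool.Agent.Helper34.SR
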