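import Mathlib
import Pool.Agent.Helper34.SR.A5

set_option autoImplicit false

/-! The averages over the prime tuples: blocks of primes and the second moment. -/

namespace Pool.Agent.Helper34.SR
open Finset Filter Topology
open Pool.Agent.E8helper16.SL (LL LL_nonneg LL_nat Sep sep_of cnt_dvd sum_ind RP RP_nonneg log_tendsto)

/-- the primes of a dyadic block -/
def blk (i : ℕ) : Finset ℕ := (Ioc (2 ^ i) (2 ^ (i + 1))).filter Nat.Prime

lemma mem_blk {i q : ℕ} : q ∈ blk i ↔ (2 ^ i < q ∧ q ≤ 2 ^ (i + 1)) ∧ q.Prime := by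
  unfold blk
  rw [mem_filter, mem_Ioc]

lemma blk_disj (I : Finset ℕ) : (I : Set ℕ).PairwiseDisjoint blk := by
  intro i _ j _ hij
  rw [Function.onFun, disjoint_left]
  intro q hi hj
  rw [mem_blk] at hi hj
  rcases lt_or_gt_of_ne hij with h | h
  · have := Nat.pow_le_pow_right (n := 2) (by norm_num) (by omega : i + 1 ≤ j)
    omega
  · have := Nat.pow_le_pow_right (n := 2) (by norm_num) (by omega : j + 1 ≤ i)
    omega

lemma RP_blk (i : ℕ) : ((blk i).card : ℝ) / 2 ^ (i + 1) ≤ RP (blk i) := by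
  unfold RP
  rw [div_eq_mul_inv, ← nsmul_eq_mul, ← sum_const]
  apply sum_le_sum
  intro q hq
  rw [mem_blk] at hq
  rw [← one_div]
  apply one_div_le_one_div_of_le (by exact_mod_cast hq.2.pos)
  exact_mod_cast hq.1.2

lemma RP_union (I : Finset ℕ) : RP (I.biUnion blk) = ∑ i ∈ I, RP (blk i) := by
  unfold RP
  exact sum_biUnion (blk_disj I)

/-- many rich blocks -/
lemma rich_many : ∃ i₁ : ℕ, 1 ≤ i₁ ∧ ∀ i0 : ℕ, i₁ ≤ i0 → ∀ J : ℕ, ∃ I : Finset ℕ, I.card = J ∧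
    ∀ i ∈ I, (i0 ≤ i ∧ i < i0 + 2 * J) ∧ (2 : ℝ) ^ i ≤ 16 * ((blk i).card * i) := by
  classical
  obtain ⟨x₀, hx₀, hr⟩ := rich_block
  refine ⟨x₀, by omega, fun i0 hi0 J => ?_⟩
  have h1 : ∀ j : ℕ, ∃ i : ℕ, (i = i0 + 2 * j ∨ i = i0 + 2 * j + 1) ∧ (2 : ℝ) ^ i ≤ 16 * ((blk i).card * i) := by
    intro j
    have hx : x₀ ≤ 2 ^ (i0 + 2 * j) := by
      have : i0 + 2 * j < 2 ^ (i0 + 2 * j) := Nat.lt_two_pow_self
      omega
    obtain ⟨Q, hQ, hb⟩ := hr _ hx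
    have hlog : Real.log ((2 ^ (i0 + 2 * j) : ℕ) : ℝ) ≤ (i0 + 2 * j : ℕ) := by
      push_cast
      rw [Real.log_pow]
      have := Real.log_two_lt_d9
      have h0 : (0 : ℝ) ≤ ((i0 + 2 * j : ℕ) : ℝ) := Nat.cast_nonneg _
      push_cast at h0 ⊢
      nlinarith
    rcases hQ with e | e
    · refine ⟨i0 + 2 * j, Or.inl rfl, ?_⟩
      have hblk : blk (i0 + 2 * j) = (Ioc Q (2 * Q)).filter Nat.Prime := by
        unfold blk
        rw [e, pow_succ, mul_comm (2 ^ (i0 + 2 * j)) 2]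
      rw [hblk]
      have hc : (0 : ℝ) ≤ (((Ioc Q (2 * Q)).filter Nat.Prime).card : ℝ) := Nat.cast_nonneg _
      have := mul_le_mul_of_nonneg_left hlog hc
      push_cast at hb this ⊢
      have h2 : 0 ≤ (((Ioc Q (2 * Q)).filter Nat.Prime).card : ℝ) * ((i0 : ℝ) + 2 * j) := by positivity
      linarith
    · refine ⟨i0 + 2 * j + 1, Or.inr rfl, ?_⟩
      have hblk : blk (i0 + 2 * j + 1) = (Ioc Q (2 * Q)).filter Nat.Prime := by
        unfold blk
        rw [e, pow_succ 2 (i0 + 2 * j + 1), pow_succ, mul_comm _ 2, mul_comm _ 2]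
      rw [hblk]
      have hc : (0 : ℝ) ≤ (((Ioc Q (2 * Q)).filter Nat.Prime).card : ℝ) := Nat.cast_nonneg _
      have := mul_le_mul_of_nonneg_left hlog hc
      push_cast at hb this ⊢
      rw [pow_succ]
      linarith
  choose g hg1 hg2 using h1
  refine ⟨(range J).image g, ?_, ?_⟩
  · rw [card_image_of_injOn, card_range]
    intro x _ y _ hxy
    have a := hg1 x
    have b := hg1 y
    omega
  · intro i hi
    rw [mem_image] at hi
    obtain ⟨j, hj, rfl⟩ := hi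
    rw [mem_range] at hj
    have := hg1 j
    exact ⟨by omega, hg2 j⟩

/-- the average over a union of blocks -/
lemma union_le {f : ℕ} (a : Fin f → ℕ) (N B H : ℕ) (c : ℕ → ℂ) (I : Finset ℕ) (ε : ℝ) (hε : 0 ≤ ε)
    (h : ∀ i ∈ I, ∑ n ∈ Icc 1 N, (∏ i, ArithmeticFunction.vonMangoldt (n + a i)) * ∑ q ∈ blk i, ‖T c H q (n + B)‖ ≤
      ε * ((blk i).card * ((H : ℝ) / (2 ^ i : ℕ) * N))) :
    ∑ n ∈ Icc 1 N, (∏ i, ArithmeticFunction.vonMangoldt (n + a i)) * ∑ q ∈ I.biUnion blk, ‖T c H q (n + B)‖ ≤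
      2 * ε * (RP (I.biUnion blk) * H * N) := by
  have h1 : ∑ n ∈ Icc 1 N, (∏ i, ArithmeticFunction.vonMangoldt (n + a i)) * ∑ q ∈ I.biUnion blk, ‖T c H q (n + B)‖ =
      ∑ i ∈ I, ∑ n ∈ Icc 1 N, (∏ i, ArithmeticFunction.vonMangoldt (n + a i)) * ∑ q ∈ blk i, ‖T c H q (n + B)‖ := by
    rw [sum_comm]
    apply sum_congr rfl
    intro n _
    rw [sum_biUnion (blk_disj I), mul_sum]
  rw [h1, RP_union, sum_mul, sum_mul, mul_sum]
  apply sum_le_sum
  intro i hi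
  refine (h i hi).trans ?_
  have h2 := RP_blk i
  have h3 : ((blk i).card : ℝ) / 2 ^ i ≤ 2 * RP (blk i) := by
    rw [pow_succ] at h2
    have : ((blk i).card : ℝ) / 2 ^ i = 2 * (((blk i).card : ℝ) / (2 ^ i * 2)) := by
      field_simp
    linarith
  calc ε * ((blk i).card * ((H : ℝ) / (2 ^ i : ℕ) * N)) = ε * (((blk i).card : ℝ) / 2 ^ i) * (H * N) := by
        push_cast; ring
    _ ≤ ε * (2 * RP (blk i)) * (H * N) := by
        apply mul_le_mul_of_nonneg_right _ (by positivity)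
        exact mul_le_mul_of_nonneg_left h3 hε
    _ = 2 * ε * (RP (blk i) * H * N) := by ring

/-- the average of the second moment -/
lemma VV_avg (f : ℕ) (hf : 1 ≤ f) (D k : ℕ) : ∃ C8 : ℝ, 1 ≤ C8 ∧ ∃ w : ℕ, 2 ≤ w ∧ ∃ N₀ : ℕ, ∀ N : ℕ, N₀ ≤ N →
    ∀ a : Fin f → ℕ, Function.Injective a → (∀ i, a i ≤ N) → (∀ i j, a i ≤ a j + D) → ∀ B H : ℕ,
    ∀ P : Finset ℕ, (∀ q ∈ P, q.Prime ∧ w < q) → (∀ q ∈ P, (q : ℝ) ≤ Real.log N ^ k) →
      ∑ n ∈ Icc 1 N, (∏ i, ArithmeticFunction.vonMangoldt (n + a i)) * VV P H (n + B) ≤ C8 * (RP P ^ 2 * H * N) := by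
  obtain ⟨C8, hC8, w, hw, N₀, h⟩ := apd f hf D (k + k)
  refine ⟨C8, hC8, w, hw, N₀, ?_⟩
  intro N hN a ha haN haD B H P hP hPL
  have hsep : Sep (fun i => (a i : ℤ)) D := by
    have := sep_of ha haD 0
    simpa using this
  have hsN : ∀ i, |(a i : ℤ)| ≤ 2 * (N : ℤ) := by
    intro i
    have := haN i
    rw [abs_le]
    constructor <;> omega
  have hL : ∀ n : ℕ, LL (fun i => (a i : ℤ)) (n : ℤ) = ∏ i, ArithmeticFunction.vonMangoldt (n + a i) := by
    intro n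
    have := LL_nat a 0 n
    simpa using this
  have h1 : ∑ n ∈ Icc 1 N, (∏ i, ArithmeticFunction.vonMangoldt (n + a i)) * VV P H (n + B) =
      ∑ q ∈ P, ∑ q' ∈ P.filter (fun q' => q' ≠ q), ∑ h ∈ Icc 1 H, ∑ n ∈ Icc 1 N,
        LL (fun i => (a i : ℤ)) (n : ℤ) * (if q * q' ∣ n + (B + h) then (1 : ℝ) else 0) := by
    unfold VV
    have e1 : ∀ n ∈ Icc 1 N, (∏ i, ArithmeticFunction.vonMangoldt (n + a i)) *
        ∑ q ∈ P, ∑ q' ∈ P.filter (fun q' => q' ≠ q), ∑ h ∈ Icc 1 H, (if q * q' ∣ n + B + h then (1 : ℝ) else 0) =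
        ∑ q ∈ P, ∑ q' ∈ P.filter (fun q' => q' ≠ q), ∑ h ∈ Icc 1 H,
          LL (fun i => (a i : ℤ)) (n : ℤ) * (if q * q' ∣ n + (B + h) then (1 : ℝ) else 0) := by
      intro n _
      rw [mul_sum]
      apply sum_congr rfl
      intro q _
      rw [mul_sum]
      apply sum_congr rfl
      intro q' _
      rw [mul_sum]
      apply sum_congr rfl
      intro h _
      rw [hL, add_assoc]
    rw [sum_congr rfl e1, sum_comm]
    apply sum_congr rfl
    intro q _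
    rw [sum_comm]
    apply sum_congr rfl
    intro q' _
    rw [sum_comm]
  rw [h1]
  have h2 : ∀ q ∈ P, ∀ q' ∈ P.filter (fun q' => q' ≠ q), ∑ h ∈ Icc 1 H, ∑ n ∈ Icc 1 N,
        LL (fun i => (a i : ℤ)) (n : ℤ) * (if q * q' ∣ n + (B + h) then (1 : ℝ) else 0) ≤
          1 / (q : ℝ) * (1 / (q' : ℝ)) * (C8 * (H * N)) := by
    intro q hq q' hq'
    rw [mem_filter] at hq'
    obtain ⟨hqp, hqw⟩ := hP q hq
    obtain ⟨hqp', hqw'⟩ := hP q' hq'.1
    have hd1 : 1 ≤ q * q' := Nat.mul_pos hqp.pos hqp'.pos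
    have hdL : ((q * q' : ℕ) : ℝ) ≤ Real.log N ^ (k + k) := by
      push_cast
      rw [pow_add]
      exact mul_le_mul (hPL q hq) (hPL q' hq'.1) (Nat.cast_nonneg _) (pow_nonneg (Real.log_natCast_nonneg N) k)
    have hdw : ∀ l : ℕ, l.Prime → l ∣ q * q' → w < l := by
      intro l hl hld
      rcases (Nat.Prime.dvd_mul hl).1 hld with e | e
      · rw [(Nat.prime_dvd_prime_iff_eq hl hqp).1 e]; exact hqw
      · rw [(Nat.prime_dvd_prime_iff_eq hl hqp').1 e]; exact hqw'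
    have hcd : (q * q').primeFactors.card ≤ 2 := by
      rw [Nat.primeFactors_mul hqp.ne_zero hqp'.ne_zero, hqp.primeFactors, hqp'.primeFactors]
      refine (card_union_le _ _).trans ?_
      simp
    have h3 : ∀ h ∈ Icc 1 H, ∑ n ∈ Icc 1 N,
        LL (fun i => (a i : ℤ)) (n : ℤ) * (if q * q' ∣ n + (B + h) then (1 : ℝ) else 0) ≤ C8 * (N / (q * q' : ℕ)) := by
      intro h' _
      exact h N hN (q * q') hd1 hdL hdw hcd (fun i => (a i : ℤ)) hsep hsN N (B + h') le_rfl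
    refine (sum_le_sum h3).trans ?_
    rw [sum_const, Nat.card_Icc, Nat.add_sub_cancel, nsmul_eq_mul]
    apply le_of_eq
    push_cast
    have q0 : (q : ℝ) ≠ 0 := by exact_mod_cast hqp.ne_zero
    have q0' : (q' : ℝ) ≠ 0 := by exact_mod_cast hqp'.ne_zero
    field_simp
  calc ∑ q ∈ P, ∑ q' ∈ P.filter (fun q' => q' ≠ q), ∑ h ∈ Icc 1 H, ∑ n ∈ Icc 1 N,
        LL (fun i => (a i : ℤ)) (n : ℤ) * (if q * q' ∣ n + (B + h) then (1 : ℝ) else 0)
      ≤ ∑ q ∈ P, ∑ q' ∈ P.filter (fun q' => q' ≠ q), 1 / (q : ℝ) * (1 / (q' : ℝ)) * (C8 * (H * N)) :=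
        sum_le_sum (fun q hq => sum_le_sum (fun q' hq' => h2 q hq q' hq'))
    _ ≤ ∑ q ∈ P, ∑ q' ∈ P, 1 / (q : ℝ) * (1 / (q' : ℝ)) * (C8 * (H * N)) := by
        apply sum_le_sum
        intro q _
        apply sum_le_sum_of_subset_of_nonneg (filter_subset _ _)
        intro q' _ _
        positivity
    _ = C8 * (RP P ^ 2 * H * N) := by
        unfold RP
        rw [sq, sum_mul_sum, sum_mul, sum_mul, mul_sum]
        apply sum_congr rfl
        intro q _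
        rw [sum_mul, sum_mul, mul_sum]
        apply sum_congr rfl
        intro q' _
        ring

end Pool.Agent.Helper34.SR
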