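import Mathlib
import Pool.Agent.Helper34.SR.A6

set_option autoImplicit false

/-! The parameters, and the number of the mismatches for almost all prime tuples. -/

namespace Pool.Agent.Helper34.SR
open Finset Filter Topology
open Pool.Agent.E8helper16.SL (LL LL_nonneg LL_nat Sep sep_of cnt_dvd sum_ind RP RP_nonneg log_tendsto)

lemma loglog_tendsto : Tendsto (fun N : ℕ => Real.log (Real.log (N : ℝ))) atTop atTop :=
  Real.tendsto_log_atTop.comp log_tendsto

/-- the parameters -/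
lemma paramsM (f : ℕ) (hf : 1 ≤ f) (C1 : ℝ) (hC1 : 1 ≤ C1) (w : ℕ) : ∃ C : ℝ, 4 ≤ C ∧ ∃ N₀ : ℕ, ∀ N : ℕ, N₀ ≤ N →
    ∀ (H : ℕ) (R : ℝ), C ≤ R → R * √(Real.log N ^ f * Real.log (Real.log N)) ≤ H → (H : ℝ) ≤ Real.log N ^ f →
    ∃ I : Finset ℕ, (∀ i ∈ I, w ≤ 2 ^ i ∧ (2 : ℝ) ^ (i + 1) * (4 * C1) ≤ H ∧ C1 * Real.log N ^ f ≤ (blk i).card * H) ∧
      Real.log R / (192 * f * Real.log (Real.log N)) ≤ RP (I.biUnion blk) := by
  obtain ⟨i₁, hi₁, hrich⟩ := rich_many
  have hf1 : (1 : ℝ) ≤ f := by exact_mod_cast hf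
  have hfC : 0 ≤ 512 * f * C1 ^ 2 := by positivity
  refine ⟨512 * f * C1 ^ 2 + 4, by linarith, ?_⟩
  have hev : ∀ᶠ N : ℕ in atTop, (2 : ℝ) ^ (i₁ + w) ≤ Real.log (Real.log N) ∧ 1 ≤ Real.log (N : ℝ) :=
    (loglog_tendsto.eventually_ge_atTop _).and (log_tendsto.eventually_ge_atTop 1)
  obtain ⟨N₀, hN₀⟩ := eventually_atTop.1 hev
  refine ⟨N₀, ?_⟩
  intro N hN H R hR hRH hHL
  obtain ⟨hl, hL1⟩ := hN₀ N hN
  obtain ⟨L, hLd⟩ : ∃ L, L = Real.log (N : ℝ) := ⟨_, rfl⟩
  rw [← hLd] at hl hL1 hRH hHL ⊢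
  obtain ⟨l, hld⟩ : ∃ l, l = Real.log L := ⟨_, rfl⟩
  rw [← hld] at hl hRH ⊢
  have hl1 : 1 ≤ l := (one_le_pow₀ (by norm_num : (1 : ℝ) ≤ 2)).trans hl
  have hLf : 0 < L ^ f := pow_pos (by linarith) f
  have hR4 : 4 ≤ R := by linarith
  have hH0 : (0 : ℝ) < H := lt_of_lt_of_le (mul_pos (by linarith) (Real.sqrt_pos.2 (by positivity))) hRH
  have hHsq : R ^ 2 * (L ^ f * l) ≤ (H : ℝ) ^ 2 := by
    have := pow_le_pow_left₀ (by positivity) hRH 2
    rwa [mul_pow, Real.sq_sqrt (by positivity)] at this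
  obtain ⟨Z0, hZ0⟩ : ∃ Z0, Z0 = 32 * f * C1 * (L ^ f * l) / H := ⟨_, rfl⟩
  have hZl : l ≤ Z0 := by
    rw [hZ0, le_div_iff₀ hH0]
    have e1 : l * H ≤ l * L ^ f := mul_le_mul_of_nonneg_left hHL (by linarith)
    have e2 : 1 ≤ 32 * f * C1 := by nlinarith
    nlinarith [mul_nonneg (by linarith : 0 ≤ l) hLf.le]
  obtain ⟨n, hn1, hn2⟩ := exists_nat_pow_near (hl1.trans hZl) (by norm_num : (1 : ℝ) < 2)
  have hi0 : i₁ + w < n + 1 := by
    have : (2 : ℝ) ^ (i₁ + w) < 2 ^ (n + 1) := (hl.trans hZl).trans_lt hn2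
    exact (pow_lt_pow_iff_right₀ (by norm_num)).1 this
  have hy0 : 2 ^ (n + 1) ≤ 2 * Z0 := by rw [pow_succ]; linarith
  obtain ⟨y, hy⟩ : ∃ y, y = (H : ℝ) / (8 * C1 * 2 ^ (n + 1)) := ⟨_, rfl⟩
  have hyR : R ≤ y := by
    rw [hy, le_div_iff₀ (by positivity)]
    have e1 : R * (8 * C1 * 2 ^ (n + 1)) ≤ R * (8 * C1 * (2 * Z0)) := by gcongr
    refine e1.trans ?_
    have e2 : R * (8 * C1 * (2 * Z0)) = (512 * f * C1 ^ 2) * R * (L ^ f * l) / H := by
      rw [hZ0]
      ring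
    rw [e2, div_le_iff₀ hH0]
    calc 512 * f * C1 ^ 2 * R * (L ^ f * l) ≤ R * R * (L ^ f * l) := by gcongr; linarith
      _ = R ^ 2 * (L ^ f * l) := by ring
      _ ≤ _ := hHsq
      _ = H * H := by ring
  obtain ⟨J, hJ1, hJ2⟩ := exists_nat_pow_near (by linarith : 1 ≤ y) (by norm_num : (1 : ℝ) < 4)
  have hJpos : 1 ≤ J := by
    rcases Nat.eq_zero_or_pos J with e | e
    · rw [e] at hJ2
      norm_num at hJ2
      linarith
    · exact e
  obtain ⟨I, hIc, hI⟩ := hrich (n + 1) (by omega) J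
  -- the properties of the blocks
  have hpr : ∀ i ∈ I, w ≤ 2 ^ i ∧ (2 : ℝ) ^ (i + 1) * (4 * C1) ≤ H ∧ (i : ℝ) ≤ 2 * f * l ∧ Z0 ≤ (2 : ℝ) ^ i := by
    intro i hi
    obtain ⟨⟨g1, g2⟩, g3⟩ := hI i hi
    have c1 : (2 : ℝ) ^ (i + 1) ≤ 2 ^ (n + 1 + 2 * J) := pow_le_pow_right₀ (by norm_num) (by omega)
    have c2 : (2 : ℝ) ^ (n + 1 + 2 * J) = 2 ^ (n + 1) * 4 ^ J := by
      rw [pow_add, pow_mul]
      norm_num
    have c3 : (2 : ℝ) ^ (i + 1) * (8 * C1) ≤ H := by
      calc (2 : ℝ) ^ (i + 1) * (8 * C1) ≤ 2 ^ (n + 1) * y * (8 * C1) := by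
            rw [c2] at c1
            gcongr
            exact c1.trans (mul_le_mul_of_nonneg_left hJ1 (by positivity))
        _ = H := by
            rw [hy]
            field_simp
    have c4 : (2 : ℝ) ^ (i + 1) * (4 * C1) ≤ H := by
      refine le_trans ?_ c3
      gcongr
      norm_num
    refine ⟨?_, c4, ?_, ?_⟩
    · have : i < 2 ^ i := Nat.lt_two_pow_self
      omega
    · have d1 : (2 : ℝ) ^ i ≤ L ^ f := by
        calc (2 : ℝ) ^ i ≤ 2 ^ (i + 1) * (4 * C1) := by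
              rw [pow_succ]
              have : (0 : ℝ) < 2 ^ i := by positivity
              nlinarith
          _ ≤ H := c4
          _ ≤ L ^ f := hHL
      have d2 := Real.log_le_log (by positivity) d1
      rw [Real.log_pow, Real.log_pow, ← hld] at d2
      have d3 := Real.log_two_gt_d9
      have d4 : (0 : ℝ) ≤ i := Nat.cast_nonneg i
      nlinarith
    · refine hn2.le.trans (pow_le_pow_right₀ (by norm_num) g1)
  refine ⟨I, ?_, ?_⟩
  · intro i hi
    obtain ⟨c1, c2, c3, c4⟩ := hpr i hi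
    obtain ⟨⟨g1, g2⟩, g3⟩ := hI i hi
    refine ⟨c1, c2, ?_⟩
    have d1 : (2 : ℝ) ^ i ≤ 32 * f * l * (blk i).card := by
      calc (2 : ℝ) ^ i ≤ 16 * ((blk i).card * i) := g3
        _ ≤ 16 * ((blk i).card * (2 * f * l)) := by gcongr
        _ = 32 * f * l * (blk i).card := by ring
    have d2 : Z0 ≤ 32 * f * l * (blk i).card := c4.trans d1
    rw [hZ0, div_le_iff₀ hH0] at d2
    have d3 : (32 * f * l) * (C1 * L ^ f) ≤ (32 * f * l) * ((blk i).card * H) := by
      calc (32 * f * l) * (C1 * L ^ f) = 32 * f * C1 * (L ^ f * l) := by ring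
        _ ≤ _ := d2
        _ = _ := by ring
    exact le_of_mul_le_mul_left d3 (by positivity)
  · rw [RP_union]
    have h1 : ∀ i ∈ I, 1 / (64 * f * l) ≤ RP (blk i) := by
      intro i hi
      obtain ⟨c1, c2, c3, c4⟩ := hpr i hi
      obtain ⟨⟨g1, g2⟩, g3⟩ := hI i hi
      refine le_trans ?_ (RP_blk i)
      rw [div_le_div_iff₀ (by positivity) (by positivity), one_mul, pow_succ]
      calc (2 : ℝ) ^ i * 2 ≤ (16 * ((blk i).card * i)) * 2 := by gcongr
        _ ≤ (16 * ((blk i).card * (2 * f * l))) * 2 := by gcongr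
        _ = (blk i).card * (64 * f * l) := by ring
    have h2 := sum_le_sum h1
    rw [sum_const, hIc, nsmul_eq_mul] at h2
    refine le_trans ?_ h2
    have h3 : Real.log R ≤ 3 * J := by
      have e1 : R ≤ 4 ^ (J + 1) := hyR.trans hJ2.le
      have e2 := Real.log_le_log (by linarith) e1
      rw [Real.log_pow] at e2
      have e3 : Real.log 4 = 2 * Real.log 2 := by
        rw [show (4 : ℝ) = 2 ^ 2 by norm_num, Real.log_pow]
        push_cast; ring
      have e4 := Real.log_two_lt_d9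
      have e5 : (1 : ℝ) ≤ J := by exact_mod_cast hJpos
      rw [e3] at e2
      push_cast at e2
      nlinarith
    rw [mul_one_div, div_le_div_iff₀ (by positivity) (by positivity)]
    calc Real.log R * (64 * f * l) ≤ (3 * J) * (64 * f * l) := by gcongr
      _ = J * (192 * f * l) := by ring

/-- the mismatches, on the weighted average over the prime tuples -/
theorem core (f : ℕ) (hf : 1 ≤ f) (D : ℕ) (ε : ℝ) (hε : 0 < ε) : ∃ C c : ℝ, 4 ≤ C ∧ 0 < c ∧ ∃ N₀ : ℕ, ∀ N : ℕ, N₀ ≤ N →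
    ∀ a : Fin f → ℕ, Function.Injective a → (∀ i, a i ≤ N) → (∀ i j, a i ≤ a j + D) → ∀ B : ℕ, B ≤ 2 * N →
    ∀ (H : ℕ) (R : ℝ), C ≤ R → R * √(Real.log N ^ f * Real.log (Real.log N)) ≤ H → (H : ℝ) ≤ Real.log N ^ f →
    ∀ s : ℕ → ℤ,
      ∑ n ∈ Icc 1 N, (∏ i, ArithmeticFunction.vonMangoldt (n + a i)) *
        (if ((mis s H (n + B)).card : ℝ) < c * min 1 (Real.log R / Real.log (Real.log N)) * H then 1 else 0) ≤ ε * N := by
  obtain ⟨C8, hC8, w, hw, N₁, hV⟩ := VV_avg f hf D f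
  obtain ⟨C1, N₂, hC1, hM⟩ := multiples f hf D (ε / 16) (by positivity)
  obtain ⟨C, hC, N₃, hP⟩ := paramsM f hf C1 hC1 w
  have hf1 : (1 : ℝ) ≤ f := by exact_mod_cast hf
  obtain ⟨A, hA⟩ : ∃ A, A = 2 * C8 / ε := ⟨_, rfl⟩
  have hA0 : 0 < A := by rw [hA]; positivity
  have hev : ∀ᶠ N : ℕ in atTop, 1 ≤ Real.log (Real.log (N : ℝ)) ∧ 1 ≤ Real.log (N : ℝ) :=
    (loglog_tendsto.eventually_ge_atTop _).and (log_tendsto.eventually_ge_atTop 1)
  obtain ⟨N₄, hN₄⟩ := eventually_atTop.1 hev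
  refine ⟨C, 1 / (192 * f) / (16 * (2 + A)), hC, by positivity, N₁ + N₂ + N₃ + N₄ + 1, ?_⟩
  intro N hN a ha haN haD B hB H R hR hRH hHL s
  obtain ⟨hl1, hL1⟩ := hN₄ N (by omega)
  obtain ⟨I, hI, hRP⟩ := hP N (by omega) H R hR hRH hHL
  have hN0 : (0 : ℝ) < N := by exact_mod_cast (by omega : 0 < N)
  have hLf : 0 < Real.log N ^ f := pow_pos (by linarith) f
  have hR4 : 4 ≤ R := by linarith
  have hlR : 0 < Real.log R := Real.log_pos (by linarith)
  have hH0 : (0 : ℝ) < H := lt_of_lt_of_le (mul_pos (by linarith) (Real.sqrt_pos.2 (by positivity))) hRH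
  have hH1 : 1 ≤ H := by exact_mod_cast hH0
  obtain ⟨P, hPd⟩ : ∃ P, P = I.biUnion blk := ⟨_, rfl⟩
  rw [← hPd] at hRP
  have hR0 : 0 < RP P := lt_of_lt_of_le (by positivity) hRP
  have hPm : ∀ q ∈ P, ∃ i ∈ I, q ∈ blk i := by
    intro q hq
    rw [hPd, mem_biUnion] at hq
    exact hq
  have hP4 : ∀ q ∈ P, q.Prime ∧ 4 * q ≤ H := by
    intro q hq
    obtain ⟨i, hi, hqi⟩ := hPm q hq
    rw [mem_blk] at hqi
    obtain ⟨g1, g2, g3⟩ := hI i hi
    refine ⟨hqi.2, ?_⟩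
    have e1 : (q : ℝ) ≤ 2 ^ (i + 1) := by exact_mod_cast hqi.1.2
    have e2 : (4 : ℝ) * q ≤ H := by
      calc (4 : ℝ) * q ≤ 4 * 2 ^ (i + 1) := by gcongr
        _ ≤ 2 ^ (i + 1) * (4 * C1) := by
            have : (0 : ℝ) < 2 ^ (i + 1) := by positivity
            nlinarith
        _ ≤ H := g2
    exact_mod_cast e2
  have hPw : ∀ q ∈ P, q.Prime ∧ w < q := by
    intro q hq
    obtain ⟨i, hi, hqi⟩ := hPm q hq
    rw [mem_blk] at hqi
    obtain ⟨g1, g2, g3⟩ := hI i hi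
    exact ⟨hqi.2, by omega⟩
  have hPL : ∀ q ∈ P, (q : ℝ) ≤ Real.log N ^ f := by
    intro q hq
    have := (hP4 q hq).2
    have e : (q : ℝ) ≤ H := by exact_mod_cast (by omega : q ≤ H)
    exact e.trans hHL
  -- the two averages
  have hA1 : ∑ n ∈ Icc 1 N, (∏ i, ArithmeticFunction.vonMangoldt (n + a i)) * ∑ q ∈ P, ‖T (cs s) H q (n + B)‖ ≤
      2 * (ε / 16) * (RP P * H * N) := by
    rw [hPd]
    apply union_le a N B H (cs s) I (ε / 16) (by positivity)
    intro i hi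
    obtain ⟨g1, g2, g3⟩ := hI i hi
    apply hM N (by omega) a ha haN haD B hB H (2 ^ i) (Nat.one_le_two_pow) _ _ (blk i) _ g3 (cs s) (cs_norm s)
    · push_cast
      refine le_trans ?_ g2
      rw [pow_succ]
      have : (0 : ℝ) < 2 ^ i := by positivity
      nlinarith
    · exact hHL.trans (pow_le_pow_right₀ hL1 (by omega))
    · intro q hq
      rw [mem_blk, pow_succ] at hq
      exact ⟨hq.2, hq.1.1.le, by omega⟩
  have hA2 := hV N (by omega) a ha haN haD B H P hPw hPL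
  -- pointwise
  have hpt : ∀ n, (if ((mis s H (n + B)).card : ℝ) < 1 / (192 * f) / (16 * (2 + A)) *
        min 1 (Real.log R / Real.log (Real.log N)) * H then (1 : ℝ) else 0) ≤
      (RP P * H / 4)⁻¹ * (∑ q ∈ P, ‖T (cs s) H q (n + B)‖) + (A * RP P ^ 2 * H)⁻¹ * VV P H (n + B) := by
    intro n
    have e1 : 0 ≤ (RP P * H / 4)⁻¹ * (∑ q ∈ P, ‖T (cs s) H q (n + B)‖) :=
      mul_nonneg (by positivity) (sum_nonneg fun q _ => norm_nonneg _)
    have e2 : 0 ≤ (A * RP P ^ 2 * H)⁻¹ * VV P H (n + B) := mul_nonneg (by positivity) (VV_nonneg _ _ _)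
    split_ifs with hcase
    · by_contra hcon
      push Not at hcon
      have e3 : (RP P * H / 4)⁻¹ * (∑ q ∈ P, ‖T (cs s) H q (n + B)‖) ≤ 1 := by linarith
      have e4 : (A * RP P ^ 2 * H)⁻¹ * VV P H (n + B) ≤ 1 := by linarith
      rw [inv_mul_le_iff₀ (by positivity), mul_one] at e3 e4
      have e5 := mis_ge s P hP4 (n + B) hA0.le hH1 hR0 e3 e4
      have e6 : 1 / (192 * f) / (16 * (2 + A)) * min 1 (Real.log R / Real.log (Real.log N)) * H ≤
          min 1 (RP P) * H / (16 * (2 + A)) := by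
        have g1 : 1 / (192 * f) * min 1 (Real.log R / Real.log (Real.log N)) ≤ min 1 (RP P) := by
          apply le_min
          · have h1 : 1 / (192 * (f : ℝ)) ≤ 1 := by
              rw [div_le_one (by positivity)]
              linarith
            have h2 : min 1 (Real.log R / Real.log (Real.log N)) ≤ 1 := min_le_left _ _
            have h3 : 0 ≤ min 1 (Real.log R / Real.log (Real.log N)) := le_min (by norm_num) (by positivity)
            calc 1 / (192 * (f : ℝ)) * min 1 (Real.log R / Real.log (Real.log N)) ≤ 1 * 1 :=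
                  mul_le_mul h1 h2 h3 (by norm_num)
              _ = 1 := by norm_num
          · refine le_trans ?_ hRP
            calc 1 / (192 * (f : ℝ)) * min 1 (Real.log R / Real.log (Real.log N))
                ≤ 1 / (192 * (f : ℝ)) * (Real.log R / Real.log (Real.log N)) := by
                  gcongr
                  exact min_le_right _ _
              _ = Real.log R / (192 * f * Real.log (Real.log N)) := by
                  field_simp
        calc 1 / (192 * f) / (16 * (2 + A)) * min 1 (Real.log R / Real.log (Real.log N)) * H =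
              (1 / (192 * f) * min 1 (Real.log R / Real.log (Real.log N))) * (H / (16 * (2 + A))) := by ring
          _ ≤ min 1 (RP P) * (H / (16 * (2 + A))) := mul_le_mul_of_nonneg_right g1 (by positivity)
          _ = _ := by ring
      linarith
    · positivity
  have h1 : ∀ n ∈ Icc 1 N, (∏ i, ArithmeticFunction.vonMangoldt (n + a i)) *
      (if ((mis s H (n + B)).card : ℝ) < 1 / (192 * f) / (16 * (2 + A)) *
        min 1 (Real.log R / Real.log (Real.log N)) * H then (1 : ℝ) else 0) ≤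
      (RP P * H / 4)⁻¹ * ((∏ i, ArithmeticFunction.vonMangoldt (n + a i)) * (∑ q ∈ P, ‖T (cs s) H q (n + B)‖)) +
        (A * RP P ^ 2 * H)⁻¹ * ((∏ i, ArithmeticFunction.vonMangoldt (n + a i)) * VV P H (n + B)) := by
    intro n _
    have := mul_le_mul_of_nonneg_left (hpt n)
      (prod_nonneg fun i _ => ArithmeticFunction.vonMangoldt_nonneg : 0 ≤ ∏ i, ArithmeticFunction.vonMangoldt (n + a i))
    refine this.trans (le_of_eq ?_)
    ring
  refine (sum_le_sum h1).trans ?_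
  rw [sum_add_distrib, ← mul_sum, ← mul_sum]
  have h2 := mul_le_mul_of_nonneg_left hA1 (by positivity : 0 ≤ (RP P * H / 4)⁻¹)
  have h3 := mul_le_mul_of_nonneg_left hA2 (by positivity : 0 ≤ (A * RP P ^ 2 * H)⁻¹)
  have h4 : (RP P * H / 4)⁻¹ * (2 * (ε / 16) * (RP P * H * N)) = ε / 2 * N := by
    have := hR0.ne'
    have := hH0.ne'
    field_simp
    ring
  have h5 : (A * RP P ^ 2 * H)⁻¹ * (C8 * (RP P ^ 2 * H * N)) = ε / 2 * N := by
    have := hR0.ne'
    have := hH0.ne'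
    rw [hA]
    field_simp
  rw [h4] at h2
  rw [h5] at h3
  linarith

end Pool.Agent.Helper34.SR
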