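import Mathlib
import Pool.Agent.Helper34.SR.A7

set_option autoImplicit false

/-! Almost all prime tuples: windows of all lengths. -/

namespace Pool.Agent.Helper34.SR
open Finset Filter Topology
open Pool.Agent.E8helper16.SL (log_tendsto)

/-- the square root is small -/
lemma sqrt_small' (f : ℕ) (δ : ℝ) (hδ : 0 < δ) : ∀ᶠ N : ℕ in atTop, √(N : ℝ) ≤ δ * (N / Real.log N ^ f) := by
  have h1 := Pool.Agent.E8helper16.SL.log_pow_le (1 / δ) f (1 / 2) (by norm_num)
  filter_upwards [h1, eventually_ge_atTop 3] with N hN hN3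
  have hN0 : (0 : ℝ) < N := by exact_mod_cast (by omega : 0 < N)
  have hL : 0 < Real.log N := Real.log_pos (by exact_mod_cast (by omega : 1 < N))
  have hs : (N : ℝ) ^ (1 / 2 : ℝ) = √(N : ℝ) := (Real.sqrt_eq_rpow _).symm
  rw [hs] at hN
  have hs0 : 0 < √(N : ℝ) := Real.sqrt_pos.2 hN0
  have e1 : √(N : ℝ) * √(N : ℝ) = N := Real.mul_self_sqrt hN0.le
  rw [← mul_div_assoc, le_div_iff₀ (pow_pos hL f)]
  have e2 : Real.log N ^ f ≤ δ * √(N : ℝ) := by
    rw [one_div, inv_mul_le_iff₀ hδ] at hN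
    exact hN
  calc √(N : ℝ) * Real.log N ^ f ≤ √(N : ℝ) * (δ * √(N : ℝ)) := mul_le_mul_of_nonneg_left e2 hs0.le
    _ = δ * (√(N : ℝ) * √(N : ℝ)) := by ring
    _ = δ * N := by rw [e1]

/-- the mismatches of the parts of a window -/
lemma mis_split (s : ℕ → ℤ) (H H' J t : ℕ) (hJ : J * H' ≤ H) :
    ∑ j ∈ range J, (mis (fun h => s (j * H' + h)) H' (t + j * H')).card ≤ (mis s H t).card := by
  classical
  have h1 : ∀ j ∈ range J, (mis (fun h => s (j * H' + h)) H' (t + j * H')).card =
      ((mis s H t).filter (fun h => j * H' < h ∧ h ≤ j * H' + H')).card := by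
    intro j hj
    rw [mem_range] at hj
    have hjJ : (j + 1) * H' ≤ J * H' := Nat.mul_le_mul_right _ (by omega)
    have hjJ' : (j + 1) * H' = j * H' + H' := by ring
    apply card_bij (fun h _ => j * H' + h)
    · intro h hh
      unfold mis at hh ⊢
      rw [mem_filter, mem_Icc] at hh
      rw [mem_filter, mem_filter, mem_Icc]
      refine ⟨⟨⟨by omega, by omega⟩, ?_⟩, by omega, by omega⟩
      have := hh.2
      rwa [add_assoc] at this
    · intro x _ y _ hxy
      omega
    · intro h hh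
      unfold mis at hh ⊢
      rw [mem_filter, mem_filter, mem_Icc] at hh
      obtain ⟨⟨⟨g1, g2⟩, g3⟩, g4, g5⟩ := hh
      refine ⟨h - j * H', ?_, by omega⟩
      rw [mem_filter, mem_Icc]
      refine ⟨⟨by omega, by omega⟩, ?_⟩
      have e1 : t + j * H' + (h - j * H') = t + h := by omega
      have e2 : j * H' + (h - j * H') = h := by omega
      simp only [e1, e2]
      exact g3
  rw [sum_congr rfl h1, ← card_biUnion]
  · apply card_le_card
    intro h hh
    rw [mem_biUnion] at hh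
    obtain ⟨j, _, hj⟩ := hh
    exact (mem_filter.1 hj).1
  · intro i _ j _ hij
    rw [Function.onFun, disjoint_left]
    intro h hi hj
    rw [mem_filter] at hi hj
    rcases lt_or_gt_of_ne hij with c | c
    · have : (i + 1) * H' ≤ j * H' := Nat.mul_le_mul_right _ (by omega)
      have e : (i + 1) * H' = i * H' + H' := by ring
      omega
    · have : (j + 1) * H' ≤ i * H' := Nat.mul_le_mul_right _ (by omega)
      have e : (j + 1) * H' = j * H' + H' := by ring
      omega

/-- the long windows -/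
lemma longpar (f : ℕ) (hf : 1 ≤ f) (C : ℝ) : ∀ᶠ N : ℕ in atTop, C ≤ √√(Real.log N ^ f) ∧
    √√(Real.log N ^ f) * √(Real.log N ^ f * Real.log (Real.log N)) ≤ ((⌊Real.log N ^ f⌋₊ : ℕ) : ℝ) ∧
    1 / 4 ≤ Real.log (√√(Real.log N ^ f)) / Real.log (Real.log N) := by
  have hlt := log_tendsto
  have h1 : ∀ᶠ x : ℝ in atTop, 16 * Real.log x ^ 2 ≤ x := by
    have h := (Real.isLittleO_pow_log_id_atTop (n := 2)).bound (by norm_num : (0 : ℝ) < 1 / 16)
    filter_upwards [h, eventually_ge_atTop 1] with x hx hx1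
    rw [Real.norm_eq_abs, Real.norm_eq_abs, abs_of_nonneg (by positivity), id, abs_of_nonneg (by linarith)] at hx
    linarith
  filter_upwards [hlt.eventually h1, hlt.eventually_ge_atTop 4, hlt.eventually_ge_atTop (C ^ 4),
    loglog_tendsto.eventually_ge_atTop 1] with N g1 g2 g3 g4
  obtain ⟨L, hLd⟩ : ∃ L, L = Real.log (N : ℝ) := ⟨_, rfl⟩
  rw [← hLd] at g1 g2 g3 g4 ⊢
  obtain ⟨l, hld⟩ : ∃ l, l = Real.log L := ⟨_, rfl⟩
  rw [← hld] at g1 g4 ⊢
  obtain ⟨y, hy⟩ : ∃ y, y = L ^ f := ⟨_, rfl⟩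
  rw [← hy]
  have hLy : L ≤ y := by
    rw [hy]
    calc L = L ^ 1 := (pow_one L).symm
      _ ≤ L ^ f := pow_le_pow_right₀ (by linarith) hf
  have hy0 : 0 < y := by linarith
  refine ⟨?_, ?_, ?_⟩
  · apply Real.le_sqrt_of_sq_le
    apply Real.le_sqrt_of_sq_le
    calc (C ^ 2) ^ 2 = C ^ 4 := by ring
      _ ≤ L := g3
      _ ≤ y := hLy
  · have e1 : √√y * √(y * l) ≤ y / 2 := by
      rw [← Real.sqrt_mul (Real.sqrt_nonneg y)]
      apply Real.sqrt_le_iff.2
      refine ⟨by positivity, ?_⟩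
      have e2 : 4 * l ≤ √y := by
        apply Real.le_sqrt_of_sq_le
        calc (4 * l) ^ 2 = 16 * l ^ 2 := by ring
          _ ≤ L := g1
          _ ≤ y := hLy
      have e3 : √y * √y = y := Real.mul_self_sqrt hy0.le
      calc √y * (y * l) = √y * (4 * l) * y / 4 := by ring
        _ ≤ √y * √y * y / 4 := by gcongr
        _ = (y / 2) ^ 2 := by rw [e3]; ring
    have e4 := (Nat.lt_floor_add_one y).le
    linarith
  · rw [Real.log_sqrt (Real.sqrt_nonneg _), Real.log_sqrt hy0.le, hy, Real.log_pow, ← hld]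
    rw [le_div_iff₀ (by linarith)]
    have : (1 : ℝ) ≤ f := by exact_mod_cast hf
    nlinarith

theorem final (f : ℕ) (hf : 1 ≤ f) (D : ℕ) (ε : ℝ) (hε : 0 < ε) : ∃ C c : ℝ, 4 ≤ C ∧ 0 < c ∧ ∃ N₀ : ℕ, ∀ N : ℕ, N₀ ≤ N →
    ∀ a : Fin f → ℕ, Function.Injective a → (∀ i, a i ≤ N) → (∀ i j, a i ≤ a j + D) → ∀ B H : ℕ, B ≤ N → H ≤ N →
    ∀ R : ℝ, C ≤ R → R * √(Real.log N ^ f * Real.log (Real.log N)) ≤ H → ∀ s : ℕ → ℤ,
      num a N (fun n => ((mis s H (n + B)).card : ℝ) < c * min 1 (Real.log R / Real.log (Real.log N)) * H) ≤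
        ε * (N / Real.log N ^ f) := by
  classical
  obtain ⟨C, c', hC, hc', N₁, hcore⟩ := core f hf D (ε / (2 ^ f * 4)) (by positivity)
  have hev : ∀ᶠ N : ℕ in atTop, (√(N : ℝ) ≤ ε / 2 * (N / Real.log N ^ f)) ∧
      (C ≤ √√(Real.log N ^ f) ∧
      √√(Real.log N ^ f) * √(Real.log N ^ f * Real.log (Real.log N)) ≤ ((⌊Real.log N ^ f⌋₊ : ℕ) : ℝ) ∧
      1 / 4 ≤ Real.log (√√(Real.log N ^ f)) / Real.log (Real.log N)) ∧
      (1 ≤ Real.log (Real.log (N : ℝ)) ∧ 1 ≤ Real.log (N : ℝ)) :=
    (sqrt_small' f (ε / 2) (by positivity)).and ((longpar f hf C).and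
      ((loglog_tendsto.eventually_ge_atTop _).and (log_tendsto.eventually_ge_atTop 1)))
  obtain ⟨N₂, hN₂⟩ := eventually_atTop.1 hev
  refine ⟨C, c' / 16, hC, by positivity, N₁ + N₂ + 2, ?_⟩
  intro N hN a ha haN haD B H hB hH R hR hRH s
  obtain ⟨hsq, ⟨hC1, hC2, hC3⟩, hl1, hL1⟩ := hN₂ N (by omega)
  have hN0 : (0 : ℝ) < N := by exact_mod_cast (by omega : 0 < N)
  have hLf : 1 ≤ Real.log N ^ f := one_le_pow₀ hL1
  have hLf0 : 0 < Real.log N ^ f := by linarith
  have hlR : 0 < Real.log R := Real.log_pos (by linarith)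
  have hH0 : (0 : ℝ) < H := lt_of_lt_of_le (mul_pos (by linarith) (Real.sqrt_pos.2 (by positivity))) hRH
  have hmin0 : 0 ≤ min 1 (Real.log R / Real.log (Real.log N)) := le_min (by norm_num) (by positivity)
  have hmin1 : min 1 (Real.log R / Real.log (Real.log N)) ≤ 1 := min_le_left _ _
  rcases le_or_gt (H : ℝ) (Real.log N ^ f) with hcase | hcase
  · -- short windows
    have hk := hcore N (by omega) a ha haN haD B (by omega) H R hR hRH hcase s
    have h1 := num_le a (by omega : 2 ≤ N)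
      (fun n => ((mis s H (n + B)).card : ℝ) < c' / 16 * min 1 (Real.log R / Real.log (Real.log N)) * H)
      (fun n => if ((mis s H (n + B)).card : ℝ) < c' * min 1 (Real.log R / Real.log (Real.log N)) * H then 1 else 0)
      (fun n => by split_ifs <;> norm_num) (by norm_num : (0 : ℝ) < 1) ?_ hk
    · refine h1.trans ?_
      have e1 : 2 ^ f * (ε / (2 ^ f * 4) * N) / (1 * Real.log N ^ f) = ε / 4 * (N / Real.log N ^ f) := by
        have : (2 : ℝ) ^ f ≠ 0 := by positivity
        field_simp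
      rw [e1]
      have e2 : 0 ≤ (N : ℝ) / Real.log N ^ f := by positivity
      linarith [mul_nonneg hε.le e2]
    · intro n hn
      rw [if_pos]
      refine lt_of_lt_of_le hn ?_
      gcongr
      linarith
  · -- long windows
    obtain ⟨H', hH'⟩ : ∃ H', H' = ⌊Real.log N ^ f⌋₊ := ⟨_, rfl⟩
    obtain ⟨R', hR'⟩ : ∃ R', R' = √√(Real.log N ^ f) := ⟨_, rfl⟩
    rw [← hH', ← hR'] at hC2
    rw [← hR'] at hC1 hC3
    have hH'1 : 1 ≤ H' := by
      rw [hH']
      exact Nat.le_floor (by exact_mod_cast hLf)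
    have hH'le : (H' : ℝ) ≤ Real.log N ^ f := by
      rw [hH']
      exact Nat.floor_le hLf0.le
    have hH'H : H' ≤ H := by
      have : (H' : ℝ) ≤ H := hH'le.trans hcase.le
      exact_mod_cast this
    obtain ⟨J, hJ⟩ : ∃ J, J = H / H' := ⟨_, rfl⟩
    have hJ1 : 1 ≤ J := by
      rw [hJ]
      exact (Nat.one_le_div_iff (by omega)).2 hH'H
    have hJH : J * H' ≤ H := by rw [hJ]; exact Nat.div_mul_le_self H H'
    have hJ2 : H ≤ 2 * (J * H') := by
      have e1 : H < H' * (H / H' + 1) := Nat.lt_mul_div_succ H (by omega)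
      rw [← hJ] at e1
      have e2 : H' * (J + 1) = J * H' + H' := by ring
      have e3 : H' ≤ J * H' := Nat.le_mul_of_pos_left H' hJ1
      omega
    have hJ0 : (0 : ℝ) < J := by exact_mod_cast hJ1
    have hH'0 : (0 : ℝ) < H' := by exact_mod_cast hH'1
    obtain ⟨m', hm'⟩ : ∃ m', m' = min 1 (Real.log R' / Real.log (Real.log N)) := ⟨_, rfl⟩
    have hm'1 : 1 / 4 ≤ m' := by
      rw [hm']
      exact le_min (by norm_num) hC3
    have hk : ∀ j ∈ range J, ∑ n ∈ Icc 1 N, (∏ i, ArithmeticFunction.vonMangoldt (n + a i)) *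
        (if ((mis (fun h => s (j * H' + h)) H' (n + B + j * H')).card : ℝ) < c' * m' * H' then 1 else 0) ≤
          ε / (2 ^ f * 4) * N := by
      intro j hj
      rw [mem_range] at hj
      have e1 : j * H' ≤ J * H' := Nat.mul_le_mul_right _ hj.le
      have := hcore N (by omega) a ha haN haD (B + j * H') (by omega) H' R' hC1 hC2 hH'le (fun h => s (j * H' + h))
      rw [← hm'] at this
      simpa only [add_assoc] using this
    have hkk : ∑ n ∈ Icc 1 N, (∏ i, ArithmeticFunction.vonMangoldt (n + a i)) *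
        (∑ j ∈ range J, if ((mis (fun h => s (j * H' + h)) H' (n + B + j * H')).card : ℝ) < c' * m' * H' then (1 : ℝ) else 0) ≤
          J * (ε / (2 ^ f * 4) * N) := by
      have e1 : ∀ n ∈ Icc 1 N, (∏ i, ArithmeticFunction.vonMangoldt (n + a i)) *
        (∑ j ∈ range J, if ((mis (fun h => s (j * H' + h)) H' (n + B + j * H')).card : ℝ) < c' * m' * H' then (1 : ℝ) else 0) =
          ∑ j ∈ range J, (∏ i, ArithmeticFunction.vonMangoldt (n + a i)) *
            (if ((mis (fun h => s (j * H' + h)) H' (n + B + j * H')).card : ℝ) < c' * m' * H' then (1 : ℝ) else 0) := by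
        intro n _
        rw [mul_sum]
      rw [sum_congr rfl e1, sum_comm]
      refine (sum_le_sum hk).trans ?_
      rw [sum_const, card_range, nsmul_eq_mul]
    have h1 := num_le a (by omega : 2 ≤ N)
      (fun n => ((mis s H (n + B)).card : ℝ) < c' / 16 * min 1 (Real.log R / Real.log (Real.log N)) * H)
      (fun n => ∑ j ∈ range J, if ((mis (fun h => s (j * H' + h)) H' (n + B + j * H')).card : ℝ) < c' * m' * H' then (1 : ℝ) else 0)
      (fun n => sum_nonneg fun j _ => by split_ifs <;> norm_num) (by positivity : (0 : ℝ) < J / 2) ?_ hkk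
    · refine h1.trans ?_
      have e1 : 2 ^ f * (J * (ε / (2 ^ f * 4) * N)) / (J / 2 * Real.log N ^ f) = ε / 2 * (N / Real.log N ^ f) := by
        have : (2 : ℝ) ^ f ≠ 0 := by positivity
        field_simp
        norm_num
      rw [e1]
      linarith
    · intro n hn
      by_contra hcon
      push Not at hcon
      -- the good windows
      have e1 : (J : ℝ) / 2 ≤ ∑ j ∈ range J, (1 - (if ((mis (fun h => s (j * H' + h)) H' (n + B + j * H')).card : ℝ) < c' * m' * H'
          then (1 : ℝ) else 0)) := by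
        rw [sum_sub_distrib, sum_const, card_range, nsmul_eq_mul, mul_one]
        linarith
      have e2 : ∀ j ∈ range J, (1 - (if ((mis (fun h => s (j * H' + h)) H' (n + B + j * H')).card : ℝ) < c' * m' * H'
          then (1 : ℝ) else 0)) * (c' * m' * H') ≤ ((mis (fun h => s (j * H' + h)) H' (n + B + j * H')).card : ℝ) := by
        intro j _
        split_ifs with hh
        · rw [sub_self, zero_mul]
          positivity
        · push Not at hh
          linarith
      have e3 : (J : ℝ) / 2 * (c' * m' * H') ≤ ((mis s H (n + B)).card : ℝ) := by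
        calc (J : ℝ) / 2 * (c' * m' * H') ≤ (∑ j ∈ range J, (1 - (if ((mis (fun h => s (j * H' + h)) H' (n + B + j * H')).card : ℝ) < c' * m' * H'
                then (1 : ℝ) else 0))) * (c' * m' * H') := by
              apply mul_le_mul_of_nonneg_right e1
              positivity
          _ ≤ ∑ j ∈ range J, ((mis (fun h => s (j * H' + h)) H' (n + B + j * H')).card : ℝ) := by
              rw [sum_mul]
              exact sum_le_sum e2
          _ ≤ _ := by exact_mod_cast mis_split s H H' J (n + B) hJH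
      have e4 : c' / 16 * min 1 (Real.log R / Real.log (Real.log N)) * H ≤ (J : ℝ) / 2 * (c' * m' * H') := by
        have d1 : (H : ℝ) ≤ 2 * (J * H') := by exact_mod_cast hJ2
        calc c' / 16 * min 1 (Real.log R / Real.log (Real.log N)) * H ≤ c' / 16 * 1 * (2 * (J * H')) := by gcongr
          _ = (J : ℝ) / 2 * (c' * (1 / 4) * H') := by ring
          _ ≤ (J : ℝ) / 2 * (c' * m' * H') := by gcongr
      linarith

end Pool.Agent.Helper34.SR
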